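import Mathlib

/-! # Analytic and algebraic tools (helper739) -/

set_option autoImplicit false

open Complex Filter Topology

namespace Pool.Agent.N739.SU

/-! ### the limit along `T` -/

theorem exp_isBigO {W : ℝ → ℂ} {l : ℂ}
    (h : (fun T : ℝ => W T - l) =O[atTop] (fun T : ℝ => 1 / T)) :
    (fun T : ℝ => cexp (W T) - cexp l) =O[atTop] (fun T : ℝ => 1 / T) := by
  have h0 : Tendsto (fun T : ℝ => W T - l) atTop (𝓝 0) := by
    refine h.trans_tendsto ?_
    simpa using tendsto_inv_atTop_zero (𝕜 := ℝ)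
  have h1 : (fun T : ℝ => cexp (W T - l) - 1) =O[atTop] (fun T : ℝ => W T - l) := by
    have h2 := (Complex.hasDerivAt_exp 0).isBigO_sub
    have h3 := h2.comp_tendsto h0
    simpa [Function.comp_def] using h3
  have h4 := (h1.trans h).const_mul_left (cexp l)
  refine h4.congr_left fun T => ?_
  rw [mul_sub, mul_one, ← Complex.exp_add]
  congr 2
  ring

/-- the base `T e^{-Λ}` -/
noncomputable def bs (Λ : ℂ) (T : ℝ) : ℂ := (T : ℂ) * cexp (-Λ)

theorem bs_exp {Λ : ℂ} {T : ℝ} (hT : 0 < T) (n : ℤ) (w : ℂ) :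
    bs Λ T ^ n * cexp w = cexp (w + n * (Real.log T - Λ)) := by
  have h1 : bs Λ T = cexp (Real.log T - Λ) := by
    unfold bs
    rw [sub_eq_add_neg, Complex.exp_add, ← Complex.ofReal_exp, Real.exp_log hT]
  rw [h1, ← Complex.exp_int_mul, ← Complex.exp_add]
  congr 1
  ring

/-- the value of the limit -/
theorem law_lim {W : ℝ → ℂ} {l Λ : ℂ} {n : ℤ} {r : ℕ} (hr : (r : ℤ) ≤ n)
    (h : (fun T : ℝ => W T - (-n * (Real.log T - Λ) + l)) =O[atTop] (fun T : ℝ => 1 / T)) :
    (fun T : ℝ => bs Λ T ^ r * cexp (W T) - (if n = r then cexp l else 0)) =O[atTop]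
      (fun T : ℝ => 1 / T) := by
  have h1 : (fun T : ℝ => (W T + n * (Real.log T - Λ)) - l) =O[atTop] (fun T : ℝ => 1 / T) :=
    h.congr_left fun T => by ring
  have h2 := exp_isBigO h1
  by_cases hn : n = r
  · rw [if_pos hn]
    refine h2.congr' ?_ EventuallyEq.rfl
    filter_upwards [eventually_gt_atTop 0] with T hT
    rw [← bs_exp hT, hn, zpow_natCast]
  · rw [if_neg hn]
    have hlt : (r : ℤ) < n := lt_of_le_of_ne hr (Ne.symm hn)
    -- bounded
    have h3 : (fun T : ℝ => cexp (W T + n * (Real.log T - Λ))) =O[atTop] (fun _ : ℝ => (1 : ℝ)) := by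
      have h4 : (fun T : ℝ => 1 / T) =O[atTop] (fun _ : ℝ => (1 : ℝ)) := by
        refine Tendsto.isBigO_one ℝ (c := (0 : ℝ)) ?_
        simpa using tendsto_inv_atTop_zero (𝕜 := ℝ)
      have h5 := (h2.trans h4).add (Asymptotics.isBigO_const_const (cexp l) (one_ne_zero (α := ℝ)) atTop)
      refine h5.congr_left fun T => ?_
      ring
    have h6 : (fun T : ℝ => bs Λ T ^ ((r : ℤ) - n)) =O[atTop] (fun T : ℝ => 1 / T) := by
      refine Asymptotics.IsBigO.of_bound (‖cexp (-Λ)‖ ^ ((r : ℤ) - n)) ?_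
      filter_upwards [eventually_ge_atTop 1] with T hT
      have hT0 : 0 < T := by linarith
      unfold bs
      rw [norm_zpow, norm_mul, mul_zpow, mul_comm, Complex.norm_real, Real.norm_eq_abs,
        abs_of_pos hT0]
      refine mul_le_mul_of_nonneg_left ?_ (by positivity)
      rw [Real.norm_eq_abs, abs_of_pos (by positivity), one_div, ← zpow_neg_one]
      exact zpow_le_zpow_right₀ hT (by omega)
    have h7 := h6.mul h3
    refine h7.congr' ?_ ?_
    · filter_upwards [eventually_gt_atTop 0] with T hT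
      have hb : bs Λ T ≠ 0 := by
        unfold bs
        exact mul_ne_zero (by exact_mod_cast hT.ne') (Complex.exp_ne_zero _)
      rw [← bs_exp hT, ← mul_assoc, ← zpow_add₀ hb, sub_add_cancel, zpow_natCast, sub_zero]
    · filter_upwards with T
      rw [mul_one]

/-! ### the limit at the point -/

theorem pt_lim {L : ℂ → ℂ} {n : ℤ} {r : ℕ} (hL : MeromorphicAt L 0)
    (hn : meromorphicOrderAt L 0 = n) (hr : (r : ℤ) ≤ n) :
    Tendsto (fun s : ℂ => (s ^ r)⁻¹ * L s) (𝓝[≠] 0)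
      (𝓝 (if n = r then meromorphicTrailingCoeffAt L 0 else 0)) := by
  obtain ⟨g, hg, hg0, hgL⟩ := (meromorphicOrderAt_eq_int_iff hL).1 hn
  have htr : meromorphicTrailingCoeffAt L 0 = g 0 :=
    hg.meromorphicTrailingCoeffAt_of_ne_zero_of_eq_nhdsNE hg0 hgL
  have h1 : Tendsto (fun s : ℂ => s ^ (n - r) * g s) (𝓝[≠] 0)
      (𝓝 (if n = r then g 0 else 0)) := by
    have hg1 : Tendsto g (𝓝[≠] 0) (𝓝 (g 0)) :=
      hg.continuousAt.tendsto.mono_left nhdsWithin_le_nhds
    by_cases hnr : n = r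
    · rw [if_pos hnr, hnr]
      simpa using hg1
    · rw [if_neg hnr]
      obtain ⟨m, hm⟩ : ∃ m : ℕ, n - r = (m : ℤ) + 1 := ⟨(n - r - 1).toNat, by omega⟩
      rw [hm]
      have h2 : Tendsto (fun s : ℂ => s ^ ((m : ℤ) + 1)) (𝓝[≠] 0) (𝓝 0) := by
        have h3 : Continuous fun s : ℂ => s ^ (m + 1) := by fun_prop
        have h4 := (h3.tendsto 0).mono_left (nhdsWithin_le_nhds (s := {0}ᶜ))
        rw [zero_pow (Nat.succ_ne_zero m)] at h4
        exact h4.congr fun s => by rw [← Nat.cast_succ, zpow_natCast]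
      have h5 := h2.mul hg1
      rwa [zero_mul] at h5
  rw [htr]
  refine h1.congr' ?_
  filter_upwards [hgL, self_mem_nhdsWithin] with s hs hs0
  have hs0' : s ≠ 0 := hs0
  rw [hs, sub_zero, smul_eq_mul, ← zpow_natCast, ← zpow_neg, ← mul_assoc, ← zpow_add₀ hs0']
  congr 2
  ring

end Pool.Agent.N739.SU
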