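import Pool.Agent.N739.SU.Main2

/-! # Single characters (helper739) -/

set_option autoImplicit false
set_option linter.unusedSectionVars false

open NumberField Complex Filter Topology IsDedekindDomain

namespace Pool.Agent.N739.SU

open Pool.Agent.Y773 (TPos LI)
open Pool.Agent.Y767 (Mq Mq_cop Mq_ne_bot)
open Pool.Agent.N41.RM (LS ray_ce rayA qv cterm)

variable {K : Type} [Field K] [NumberField K] {𝔮 : Ideal (𝓞 K)} {G : Type} [CommGroup G] [Finite G]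

theorem chi_sum (hbot : 𝔮 ≠ ⊥) (htop : 𝔮 ≠ ⊤) {art : Mq 𝔮 →* G} (hT : Triv art) (χ : G →* ℂˣ)
    (γ : ℝ) {T : ℝ} (hT0 : 0 < T) :
    (Summable fun x : HeightOneSpectrum (𝓞 K) × ℕ =>
      ‖et htop art χ x.1.asIdeal ^ (x.2 + 1) * wt γ T x‖) ∧
    ∑' x : HeightOneSpectrum (𝓞 K) × ℕ, et htop art χ x.1.asIdeal ^ (x.2 + 1) * wt γ T x =
      ∑ᶠ B : G, ((χ B : ℂˣ) : ℂ) * Pc art γ T B := by
  obtain ⟨𝔣, e, ψ, h1, h2, -, -⟩ := exists_psi hbot htop hT χ
  have E := ray_ce h1.xi.1 (Sq hbot)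
  have h5 : ∀ x : HeightOneSpectrum (𝓞 K) × ℕ, et htop art χ x.1.asIdeal ^ (x.2 + 1) * wt γ T x =
      cterm qv (rayA ψ (Sq hbot)) 0 γ T x := by
    intro x
    by_cases h : IsCoprime x.1.asIdeal 𝔮
    · rw [cterm_one hbot h2 γ T x h, et_pos htop art χ h, map_pow, Units.val_pow_eq_pow_val]
    · rw [cterm_zero ψ hbot γ T x h, et_neg htop art χ h, zero_pow (Nat.succ_ne_zero _), zero_mul]
  refine ⟨?_, ?_⟩
  · refine (E.cterm_summable 0 γ hT0).congr fun x => ?_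
    rw [h5]
  · rw [← W_eq hbot htop hT h2 γ hT0]
    exact tsum_congr h5

/-- the value is not zero iff the order is one -/
theorem order_iff {L : ℂ → ℂ} (hL : MeromorphicAt L 0) {D : ℂ}
    (h1 : ((1 : ℤ) : WithTop ℤ) ≤ meromorphicOrderAt L 0)
    (h2 : Tendsto (fun s : ℂ => (s ^ 1)⁻¹ * L s) (𝓝[≠] 0) (𝓝 D)) :
    D ≠ 0 ↔ meromorphicOrderAt L 0 = 1 := by
  have hm : MeromorphicAt (fun s : ℂ => (s ^ 1)⁻¹) 0 := by fun_prop
  have hm1 : MeromorphicAt (fun s : ℂ => s ^ 1) 0 := by fun_prop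
  have h3 : meromorphicOrderAt (fun s : ℂ => s ^ 1) 0 = ((1 : ℤ) : WithTop ℤ) := by
    rw [meromorphicOrderAt_eq_int_iff hm1]
    exact ⟨fun _ => 1, analyticAt_const, one_ne_zero, Eventually.of_forall fun s => by simp⟩
  have h4 : meromorphicOrderAt (fun s : ℂ => (s ^ 1)⁻¹) 0 = ((-1 : ℤ) : WithTop ℤ) := by
    have := meromorphicOrderAt_inv (f := fun s : ℂ => s ^ 1) (x := 0)
    rw [show (fun s : ℂ => (s ^ 1)⁻¹) = (fun s : ℂ => s ^ 1)⁻¹ from rfl, this, h3]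
    rfl
  have h5 : meromorphicOrderAt (fun s : ℂ => (s ^ 1)⁻¹ * L s) 0 =
      ((-1 : ℤ) : WithTop ℤ) + meromorphicOrderAt L 0 := by
    rw [← h4]
    exact meromorphicOrderAt_mul hm hL
  have hmm : MeromorphicAt (fun s : ℂ => (s ^ 1)⁻¹ * L s) 0 := hm.mul hL
  constructor
  · intro hD
    have h6 : meromorphicOrderAt (fun s : ℂ => (s ^ 1)⁻¹ * L s) 0 = 0 :=
      (tendsto_ne_zero_iff_meromorphicOrderAt_eq_zero hmm).1 ⟨D, hD, h2⟩
    rw [h5] at h6
    generalize meromorphicOrderAt L 0 = o at h6 h1 ⊢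
    cases o with
    | top => simp at h6
    | coe o =>
      have h7 : (-1 : ℤ) + o = 0 := by exact_mod_cast h6
      have h8 : o = 1 := by omega
      rw [h8]
      rfl
  · intro h6 hD
    rw [h6] at h5
    have h7 : meromorphicOrderAt (fun s : ℂ => (s ^ 1)⁻¹ * L s) 0 = 0 := by
      rw [h5]
      rfl
    obtain ⟨c, hc, h8⟩ := (tendsto_ne_zero_iff_meromorphicOrderAt_eq_zero hmm).2 h7
    have h9 := tendsto_nhds_unique h2 h8
    exact hc (by rw [← h9, hD])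

end Pool.Agent.N739.SU
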