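import Pool.Agent.N739.SU.Chi

/-! # Finite places which split completely (helper739) -/

set_option autoImplicit false
set_option linter.unusedSectionVars false

open NumberField Complex Filter Topology IsDedekindDomain

namespace Pool.Agent.N739.SU

open Pool.Agent.Y773 (TPos LI)
open Pool.Agent.Y767 (Mq Mq_cop Mq_ne_bot)
open Pool.Agent.Y773.IQ (ne_zero_of_cop cop_mono cop_one cop_congr cop_mul)
open Pool.Agent.Y773.G (IsPrimChar ex)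
open Pool.Agent.N784.AD (exists_tp prim_congr SameSign)
open Pool.Agent.R362.HL Pool.Agent.R362.Near
open Pool.Agent.N41.RM (LS LS_eq LI_hasProd mero_unique)

variable {K : Type} [Field K] [NumberField K]

/-! ### the order at zero, with Euler factors -/

section ord

variable {𝔣 : Ideal (𝓞 K)} {e : InfinitePlace K → ℕ} {ψ : Ideal (𝓞 K) →*₀ ℂ}

/-- `(1 - N(v)^{-s}) / s` -/
noncomputable def dv (v : HeightOneSpectrum (𝓞 K)) : ℂ → ℂ :=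
  dslope (fun s : ℂ => 1 - 1 * ((Ideal.absNorm v.asIdeal : ℕ) : ℂ) ^ (-s)) 0

lemma dv_diff (v : HeightOneSpectrum (𝓞 K)) : Differentiable ℂ (dv v) := by
  unfold dv
  rw [← differentiableOn_univ, Complex.differentiableOn_dslope Filter.univ_mem]
  exact (cpow_diff' (nm_ne v) 1).differentiableOn

lemma dv_eq (v : HeightOneSpectrum (𝓞 K)) (s : ℂ) :
    1 - 1 * ((Ideal.absNorm v.asIdeal : ℕ) : ℂ) ^ (-s) = s * dv v s := by
  have h := sub_smul_dslope (fun s : ℂ => 1 - 1 * ((Ideal.absNorm v.asIdeal : ℕ) : ℂ) ^ (-s)) 0 s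
  rw [sub_zero, smul_eq_mul] at h
  unfold dv
  rw [h]
  simp

theorem fac_gen (h : IsRay 𝔣 e ψ) {S Q : Finset (HeightOneSpectrum (𝓞 K))} (hQS : Q ⊆ S)
    (hQ : ∀ v ∈ Q, ψ v.asIdeal = 1)
    {P : Finset (InfinitePlace K)} (hP : ∀ w ∈ P, e w = 0) {L : ℂ → ℂ}
    (hL : ∀ s, MeromorphicAt L s) (hL1 : ∀ s : ℂ, 1 < s.re → L s = LS ψ S s) :
    ∃ A : ℂ → ℂ, AnalyticAt ℂ A 0 ∧ L =ᶠ[𝓝[≠] 0] fun s =>
      s ^ (P.card + Q.card) * A s / (s * (s - 1)) ^ rayPole ψ := by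
  classical
  obtain ⟨hψ, X, hX⟩ := h.xi
  have hR0 : 0 < rayCond 𝔣 := by linarith [hX.one_le]
  have hRc : (rayCond 𝔣 : ℂ) ≠ 0 := by exact_mod_cast hR0.ne'
  set r0 := (Finset.univ.filter fun φ : K →+* ℂ => ex e φ = 0).card with hr0
  obtain ⟨k, hk⟩ : ∃ k, r0 = P.card + k := ⟨r0 - P.card, by have := card_le hP; omega⟩
  set E : ℂ → ℂ := fun s => ∏ v ∈ S, (1 - ψ v.asIdeal * ((Ideal.absNorm v.asIdeal : ℕ) : ℂ) ^ (-s))
    with hE
  have hEd : Differentiable ℂ E := by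
    rw [hE]
    exact Differentiable.fun_finsetProd fun v _ => cpow_diff' (nm_ne v) _
  set B : ℂ → ℂ := fun s => (∏ v ∈ S \ Q, (1 - ψ v.asIdeal *
    ((Ideal.absNorm v.asIdeal : ℕ) : ℂ) ^ (-s))) * ∏ v ∈ Q, dv v s with hB
  have hBd : Differentiable ℂ B := by
    rw [hB]
    exact (Differentiable.fun_finsetProd fun v _ => cpow_diff' (nm_ne v) _).mul
      (Differentiable.fun_finsetProd fun v _ => dv_diff v)
  have hBE : ∀ s, E s = s ^ Q.card * B s := by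
    intro s
    rw [hE, hB]
    simp only
    rw [← Finset.prod_sdiff hQS, mul_left_comm]
    congr 1
    rw [← Finset.prod_const, ← Finset.prod_mul_distrib]
    exact Finset.prod_congr rfl fun v hv => by rw [hQ v hv, dv_eq]
  set M : ℂ → ℂ := fun z => X z * ginf (rayCond 𝔣) e z / (z * (z - 1)) ^ rayPole ψ * E z with hM
  have hMm : ∀ s, MeromorphicAt M s := by
    intro s
    have h1 : AnalyticAt ℂ X s := hX.diff.analyticAt s
    have h2 : AnalyticAt ℂ (ginf (rayCond 𝔣) e) s := (ginf_diff hR0).analyticAt s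
    have h3 : AnalyticAt ℂ (fun z : ℂ => (z * (z - 1)) ^ rayPole ψ) s := by fun_prop
    exact ((h1.mul h2).meromorphicAt.div h3.meromorphicAt).mul (hEd.analyticAt s).meromorphicAt
  have hM1 : ∀ z : ℂ, 1 < z.re → L z = M z := by
    intro z hz
    rw [hL1 z hz, LS_eq hψ S hz, hM]
    simp only
    congr 1
    rw [hX.eq z hz, ginf, Finset.prod_inv_distrib, Complex.cpow_neg]
    have hp : ∏ φ : K →+* ℂ, Gammaℝ (z + (ex e φ : ℕ)) ≠ 0 :=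
      Finset.prod_ne_zero_iff.2 fun φ _ => Gammaℝ_ne_zero_of_re_pos (by
        rw [Complex.add_re, Complex.natCast_re]
        have : (0 : ℝ) ≤ (ex e φ : ℕ) := Nat.cast_nonneg _
        linarith)
    have hc : (rayCond 𝔣 : ℂ) ^ (z / 2) ≠ 0 := by
      rw [Ne, Complex.cpow_eq_zero_iff]
      exact fun h => hRc h.1
    have h0 : (z * (z - 1)) ^ rayPole ψ ≠ 0 := by
      refine pow_ne_zero _ (mul_ne_zero ?_ ?_)
      · rintro rfl
        norm_num at hz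
      · rw [sub_ne_zero]
        rintro rfl
        norm_num at hz
    field_simp
  have hLM := mero_unique hL hMm hM1 0
  refine ⟨fun s => s ^ k * (X s * ((rayCond 𝔣 : ℂ) ^ (-(s / 2)) * ∏ φ : K →+* ℂ, gph e φ s) * B s),
    ?_, ?_⟩
  · have h1 : AnalyticAt ℂ (fun s : ℂ => ∏ φ : K →+* ℂ, gph e φ s) 0 :=
      Finset.analyticAt_fun_prod _ fun φ _ => (gph_diff e φ).analyticAt 0
    have h2 : AnalyticAt ℂ (fun s : ℂ => (rayCond 𝔣 : ℂ) ^ (-(s / 2))) 0 := by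
      have : Differentiable ℂ fun s : ℂ => (rayCond 𝔣 : ℂ) ^ (-(s / 2)) := fun s =>
        DifferentiableAt.const_cpow (by fun_prop) (Or.inl hRc)
      exact this.analyticAt 0
    have h3 : AnalyticAt ℂ (fun s : ℂ => s ^ k) 0 := by fun_prop
    exact h3.mul (((hX.diff.analyticAt 0).mul (h2.mul h1)).mul (hBd.analyticAt 0))
  · filter_upwards [hLM, self_mem_nhdsWithin] with s h1 h3
    have hs : s ≠ 0 := h3
    rw [h1, hM]
    simp only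
    rw [hBE, ginf, prod_gph e hs, ← hr0, hk, pow_add, pow_add]
    ring

theorem ord_of_fac {L A : ℂ → ℂ} {n : ℕ} (hA : AnalyticAt ℂ A 0)
    (h : L =ᶠ[𝓝[≠] 0] fun s => s ^ n * A s) :
    ((n : ℤ) : WithTop ℤ) ≤ meromorphicOrderAt L 0 := by
  rw [meromorphicOrderAt_congr h]
  have h1 : MeromorphicAt (fun s : ℂ => s ^ n) 0 := by fun_prop
  have h2 : meromorphicOrderAt (fun s : ℂ => s ^ n * A s) 0 =
      meromorphicOrderAt (fun s : ℂ => s ^ n) 0 + meromorphicOrderAt A 0 :=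
    meromorphicOrderAt_mul h1 hA.meromorphicAt
  rw [h2]
  have h3 : meromorphicOrderAt (fun s : ℂ => s ^ n) 0 = ((n : ℤ) : WithTop ℤ) := by
    rw [meromorphicOrderAt_eq_int_iff h1]
    refine ⟨fun _ => 1, analyticAt_const, one_ne_zero, Eventually.of_forall fun s => ?_⟩
    simp
  rw [h3]
  exact le_add_of_nonneg_right hA.meromorphicOrderAt_nonneg

theorem ord_zero (h : IsRay 𝔣 e ψ) {S Q : Finset (HeightOneSpectrum (𝓞 K))} (hQS : Q ⊆ S)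
    (hQ : ∀ v ∈ Q, ψ v.asIdeal = 1) (hp : rayPole ψ = 0)
    {P : Finset (InfinitePlace K)} (hP : ∀ w ∈ P, e w = 0) {L : ℂ → ℂ}
    (hL : ∀ s, MeromorphicAt L s) (hL1 : ∀ s : ℂ, 1 < s.re → L s = LS ψ S s) :
    (((P.card + Q.card : ℕ) : ℤ) : WithTop ℤ) ≤ meromorphicOrderAt L 0 := by
  obtain ⟨A, hA, hLA⟩ := fac_gen h hQS hQ hP hL hL1
  refine ord_of_fac hA (hLA.trans (Eventually.of_forall fun s => ?_))
  simp only
  rw [hp, pow_zero, div_one]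

theorem ord_one (h : IsRay 𝔣 e ψ) {S Q : Finset (HeightOneSpectrum (𝓞 K))} (hQS : Q ⊆ S)
    (hQ : ∀ v ∈ Q, ψ v.asIdeal = 1) (hp : rayPole ψ = 1)
    {P : Finset (InfinitePlace K)} (hP : ∀ w ∈ P, e w = 0) {r : ℕ} (hr : r + 1 = P.card + Q.card)
    {L : ℂ → ℂ} (hL : ∀ s, MeromorphicAt L s) (hL1 : ∀ s : ℂ, 1 < s.re → L s = LS ψ S s) :
    ((r : ℤ) : WithTop ℤ) ≤ meromorphicOrderAt L 0 := by
  obtain ⟨A, hA, hLA⟩ := fac_gen h hQS hQ hP hL hL1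
  refine ord_of_fac (A := fun s => A s / (s - 1)) (hA.div (by fun_prop) (by norm_num)) ?_
  filter_upwards [hLA, self_mem_nhdsWithin] with s h1 h2
  have hs : s ≠ 0 := h2
  rw [h1, hp, pow_one, ← hr, pow_succ]
  rw [show s ^ r * s * A s = s * (s ^ r * A s) by ring, mul_div_mul_left _ _ hs]
  ring

end ord

/-! ### the trivial character -/

/-- the trivial character -/
noncomputable def tr (K : Type) [Field K] [NumberField K] : Ideal (𝓞 K) →*₀ ℂ := of0 1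

lemma tr_one {𝔞 : Ideal (𝓞 K)} (h : 𝔞 ≠ ⊥) : tr K 𝔞 = 1 := by
  unfold tr
  rw [of0_pos 1 (mem_nonZeroDivisors_iff_ne_zero.2 h), MonoidHom.one_apply, Units.val_one]

lemma tr_ray : IsRay ⊤ (fun _ => 0) (tr K) where
  ne_bot := top_ne_bot
  sig_le _ := zero_le_one
  cpx _ _ := rfl
  supp 𝔞 h := by
    rw [tr_one h]
    refine ⟨fun _ => ?_, fun _ => one_ne_zero⟩
    rw [Ideal.isCoprime_iff_sup_eq, sup_top_eq]
  sig x hx _ := by
    rw [tr_one (fun h => hx (Ideal.span_singleton_eq_bot.1 h))]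
    unfold signs
    simp
  prim 𝔤 h1 h2 := absurd (Ideal.isUnit_iff.1 (isUnit_of_dvd_one (by
    rwa [← Ideal.one_eq_top] at h1))) h2

lemma tr_pole : rayPole (tr K) = 1 := by
  unfold rayPole
  exact if_pos fun 𝔞 h => tr_one h

variable {𝔮 : Ideal (𝓞 K)} {G : Type} [CommGroup G] [Finite G]

theorem tr_LF (hbot : 𝔮 ≠ ⊥) (htop : 𝔮 ≠ ⊤) (art : Mq 𝔮 →* G) {s : ℂ} (hs : 1 < s.re) :
    LF htop art 1 s = LS (tr K) (Sq hbot) s := by
  unfold LF LS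
  rw [← (LI_hasProd (et_norm htop art 1) hs).tprod_eq]
  refine tprod_congr fun v => ?_
  by_cases hv : v ∈ Sq hbot
  · rw [if_pos hv, et_neg htop art 1 (fun h => (cop_iff hbot v).1 h hv), zero_mul, sub_zero, inv_one]
  · have h := (cop_iff hbot v).2 hv
    rw [if_neg hv, et_pos htop art 1 h, tr_one v.ne_bot, MonoidHom.one_apply, Units.val_one]

/-! ### primes which split completely -/

/-- the prime `v`, which may divide `𝔮`, splits completely -/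
def SplF (art : Mq 𝔮 →* G) (v : HeightOneSpectrum (𝓞 K)) : Prop :=
  ∀ (𝔪 : Ideal (𝓞 K)) (n : ℕ), 𝔮 = v.asIdeal ^ n * 𝔪 → IsCoprime v.asIdeal 𝔪 →
    ∀ (x : 𝓞 K) (k : ℕ) (𝔟 : Mq 𝔮), x - 1 ∈ 𝔪 → TPos K x →
      Ideal.span {x} = v.asIdeal ^ k * (𝔟 : Ideal (𝓞 K)) → art 𝔟 = 1

lemma cop_v (v : HeightOneSpectrum (𝓞 K)) {𝔪 : Ideal (𝓞 K)} (h : ¬ v.asIdeal ∣ 𝔪) :
    IsCoprime v.asIdeal 𝔪 := by
  rw [Ideal.isCoprime_iff_sup_eq]
  by_contra h1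
  have h2 := v.isMaximal.eq_of_le h1 le_sup_left
  apply h
  rw [Ideal.dvd_iff_le, h2]
  exact le_sup_right

/-- the part of `𝔮` prime to `v` -/
lemma exists_part (hbot : 𝔮 ≠ ⊥) (v : HeightOneSpectrum (𝓞 K)) :
    ∃ (𝔪 : Ideal (𝓞 K)) (n : ℕ), 𝔮 = v.asIdeal ^ n * 𝔪 ∧ IsCoprime v.asIdeal 𝔪 := by
  have hfin : FiniteMultiplicity v.asIdeal 𝔮 := FiniteMultiplicity.of_prime_left v.prime hbot
  obtain ⟨𝔪, h1, h2⟩ := hfin.exists_eq_pow_mul_and_not_dvd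
  exact ⟨𝔪, _, h1, cop_v v h2⟩

/-- congruences with positivity -/
lemma crt_tp {I J : Ideal (𝓞 K)} (hI : I ≠ ⊥) (hJ : J ≠ ⊥) (h : IsCoprime I J) (a b : 𝓞 K) :
    ∃ y : 𝓞 K, TPos K y ∧ y - a ∈ I ∧ y - b ∈ J := by
  obtain ⟨i, hi, j, hj, hij⟩ := Ideal.isCoprime_iff_exists.mp h
  obtain ⟨y, hy, hy1⟩ := exists_tp (a * j + b * i) (mul_ne_zero hI hJ)
  refine ⟨y, hy, ?_, ?_⟩
  · have : y - a = (y - (a * j + b * i)) + (b - a) * i := by linear_combination a * hij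
    rw [this]
    exact add_mem (Ideal.mul_le_left hy1) (Ideal.mul_mem_left _ _ hi)
  · have : y - b = (y - (a * j + b * i)) + (a - b) * j := by linear_combination b * hij
    rw [this]
    exact add_mem (Ideal.mul_le_right hy1) (Ideal.mul_mem_left _ _ hj)

theorem cond_part (hbot : 𝔮 ≠ ⊥) {art : Mq 𝔮 →* G} {v : HeightOneSpectrum (𝓞 K)}
    (hv : SplF art v) {𝔪 : Ideal (𝓞 K)} {n : ℕ} (h𝔪 : 𝔮 = v.asIdeal ^ n * 𝔪)
    (hcop : IsCoprime v.asIdeal 𝔪) {χ : G →* ℂˣ} {𝔣 : Ideal (𝓞 K)} {ψ : Ideal (𝓞 K) →*₀ ℂ}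
    (hψ : IsPrimChar K 𝔣 ψ) (hχ : ∀ x : Mq 𝔮, ψ (x : Ideal (𝓞 K)) = ((χ (art x) : ℂˣ) : ℂ)) :
    𝔪 ≤ 𝔣 := by
  by_cases hft : 𝔣 = ⊤
  · rw [hft]; exact le_top
  have h𝔪b : 𝔪 ≠ ⊥ := by
    rintro rfl
    exact hbot (by rw [h𝔪, Ideal.mul_bot])
  by_contra hle
  have hne : 𝔣 ⊔ 𝔪 ≠ 𝔣 := fun h => hle (by rw [← h]; exact le_sup_right)
  obtain ⟨x, hx1, hxp, hxc, hx2⟩ := hψ.prim (𝔣 ⊔ 𝔪) (Ideal.dvd_iff_le.2 le_sup_left) hne
  obtain ⟨f, hf, m, hm, hfm⟩ := Submodule.mem_sup.1 hx1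
  -- `y₀ = x - f = 1 + m`
  obtain ⟨J, hJ1, hJ2, hJc, hJ3, hJb⟩ : ∃ J : Ideal (𝓞 K), J ≤ 𝔣 ∧ J ≤ 𝔪 ∧
      (¬ v.asIdeal ∣ 𝔣 → IsCoprime v.asIdeal J) ∧ 𝔣 * 𝔪 = J ∧ J ≠ ⊥ := by
    refine ⟨𝔣 * 𝔪, Ideal.mul_le_left, Ideal.mul_le_right, fun h => ?_, rfl, mul_ne_zero hψ.ne_bot h𝔪b⟩
    exact IsCoprime.mul_right (cop_v v h) hcop
  obtain ⟨y, hyp, hyf, hym, hyv⟩ : ∃ y : 𝓞 K, TPos K y ∧ y - x ∈ 𝔣 ∧ y - 1 ∈ 𝔪 ∧
      IsCoprime v.asIdeal (Ideal.span {y}) := by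
    by_cases hvf : v.asIdeal ∣ 𝔣
    · obtain ⟨y, hy, hy1⟩ := exists_tp (x - f) hJb
      have h1 : y - x ∈ 𝔣 := by
        have : y - x = (y - (x - f)) - f := by ring
        rw [this]
        exact sub_mem (hJ1 hy1) hf
      have h2 : IsCoprime (Ideal.span {y}) 𝔣 := cop_congr h1 hxc
      refine ⟨y, hy, h1, ?_, ?_⟩
      · have : y - 1 = (y - (x - f)) + m := by linear_combination (-1 : 𝓞 K) * hfm
        rw [this]
        exact add_mem (hJ2 hy1) hm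
      · exact (cop_mono (Ideal.dvd_iff_le.1 hvf) h2).symm
    · obtain ⟨y, hy, hy1, hy2⟩ := crt_tp hJb v.ne_bot (hJc hvf).symm (x - f) 1
      refine ⟨y, hy, ?_, ?_, ?_⟩
      · have : y - x = (y - (x - f)) - f := by ring
        rw [this]
        exact sub_mem (hJ1 hy1) hf
      · have : y - 1 = (y - (x - f)) + m := by linear_combination (-1 : 𝓞 K) * hfm
        rw [this]
        exact add_mem (hJ2 hy1) hm
      · exact (cop_one hy2).symm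
  have hyq : IsCoprime (Ideal.span {y}) 𝔮 := by
    rw [h𝔪]
    exact IsCoprime.mul_right (IsCoprime.pow_right hyv.symm) (cop_one hym)
  have h1 := hv 𝔪 n h𝔪 hcop y 0 ⟨Ideal.span {y}, hyq⟩ hym hyp (by rw [pow_zero, one_mul])
  have h2 := hχ ⟨Ideal.span {y}, hyq⟩
  rw [h1, map_one, Units.val_one] at h2
  have h3 := prim_congr hψ hft hyf hxc (SameSign.of_tp hyp hxp)
  exact hx2 (h3.symm.trans h2)

theorem psi_v (hbot : 𝔮 ≠ ⊥) {art : Mq 𝔮 →* G} {v : HeightOneSpectrum (𝓞 K)}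
    (hv : SplF art v) {χ : G →* ℂˣ} {𝔣 : Ideal (𝓞 K)} {ψ : Ideal (𝓞 K) →*₀ ℂ}
    (hψ : IsPrimChar K 𝔣 ψ) (hχ : ∀ x : Mq 𝔮, ψ (x : Ideal (𝓞 K)) = ((χ (art x) : ℂˣ) : ℂ)) :
    ψ v.asIdeal = 1 := by
  obtain ⟨𝔪, n, h𝔪, hcop⟩ := exists_part hbot v
  have hle := cond_part hbot hv h𝔪 hcop hψ hχ
  have h𝔪b : 𝔪 ≠ ⊥ := by
    rintro rfl
    exact hbot (by rw [h𝔪, Ideal.mul_bot])
  obtain ⟨p, hp1, hp2⟩ := Ideal.exists_mem_pow_notMem_pow_succ v.asIdeal v.ne_bot v.isPrime.ne_top 1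
  rw [pow_one] at hp1
  have h2b : v.asIdeal ^ 2 ≠ ⊥ := pow_ne_zero 2 v.ne_bot
  obtain ⟨x, hx, hx1, hx2⟩ := crt_tp h2b h𝔪b (IsCoprime.pow_left hcop) p 1
  have hxv : x ∈ v.asIdeal := by
    have : x = (x - p) + p := by ring
    rw [this]
    exact add_mem (Ideal.pow_le_self two_ne_zero hx1) hp1
  have hxv2 : x ∉ v.asIdeal ^ 2 := by
    intro h
    apply hp2
    have : p = x - (x - p) := by ring
    rw [this]
    exact sub_mem h hx1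
  obtain ⟨𝔟, h𝔟⟩ := Ideal.dvd_iff_le.mpr ((Ideal.span_singleton_le_iff_mem v.asIdeal).mpr hxv)
  have hb1 : ¬ v.asIdeal ∣ 𝔟 := by
    rintro ⟨𝔠, h𝔠⟩
    apply hxv2
    have h1 : Ideal.span {x} ≤ v.asIdeal ^ 2 := by
      rw [h𝔟, h𝔠, ← mul_assoc, ← pow_two]
      exact Ideal.mul_le_left
    exact h1 (Ideal.mem_span_singleton_self x)
  have hb2 : IsCoprime 𝔟 𝔪 := by
    have h1 := cop_one hx2
    rw [h𝔟] at h1
    exact (IsCoprime.mul_left_iff.mp h1).2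
  have hbq : IsCoprime 𝔟 𝔮 := by
    rw [h𝔪]
    exact IsCoprime.mul_right (IsCoprime.pow_right (cop_v v hb1).symm) hb2
  have h1 := hv 𝔪 n h𝔪 hcop x 1 ⟨𝔟, hbq⟩ hx2 hx (by rw [pow_one]; exact h𝔟)
  have h2 := hχ ⟨𝔟, hbq⟩
  rw [h1, map_one, Units.val_one] at h2
  have hx0 : x ≠ 0 := by
    rintro rfl
    exact hxv2 (zero_mem _)
  have h3 := hψ.ray x hx0 (hle hx2) hx
  rw [h𝔟, map_mul] at h3
  have h4 : ψ 𝔟 = 1 := h2
  rwa [h4, mul_one] at h3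

end Pool.Agent.N739.SU
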