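import Pool.Agent.N739.SU.Fin

/-! # The order of vanishing of all L-functions: all places which split completely (helper739) -/

set_option autoImplicit false
set_option linter.unusedSectionVars false

open NumberField Complex Filter Topology IsDedekindDomain

namespace Pool.Agent.N739.SU

open Pool.Agent.Y773 (TPos LI)
open Pool.Agent.Y767 (Mq Mq_cop Mq_ne_bot)
open Pool.Agent.Y773.IQ (cop_one)
open Pool.Agent.Y773.G (IsPrimChar)
open Pool.Agent.R362.HL
open Pool.Agent.N41.RM (LS LI_hasProd)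

variable {K : Type} [Field K] [NumberField K]

lemma ray_prim {𝔣 : Ideal (𝓞 K)} {e : InfinitePlace K → ℕ} {ψ : Ideal (𝓞 K) →*₀ ℂ}
    (h : IsRay 𝔣 e ψ) : IsPrimChar K 𝔣 ψ where
  ne_bot := h.ne_bot
  supp := h.supp
  ray x hx0 hx hp := by
    rw [h.sig x hx0 hx, signs_eq h.cpx]
    exact Pool.Agent.Y773.G.sg_TPos e hx0 hp
  prim := h.prim

variable {𝔮 : Ideal (𝓞 K)} {G : Type} [CommGroup G] [Finite G]

/-- the infinite place `w` splits completely -/
def SplI (art : Mq 𝔮 →* G) (w : InfinitePlace K) : Prop :=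
  ∀ x : 𝓞 K, ∀ hx : x - 1 ∈ 𝔮,
    (∀ v : InfinitePlace K, v.IsReal → v ≠ w → 0 < (v.embedding (x : K)).re) →
      art ⟨Ideal.span {x}, cop_one hx⟩ = 1

theorem ordGe_gen (hbot : 𝔮 ≠ ⊥) (htop : 𝔮 ≠ ⊤) {art : Mq 𝔮 →* G}
    (hs : Function.Surjective art) (hT : Triv art)
    (P : Finset (InfinitePlace K)) (hP : ∀ w ∈ P, SplI art w)
    (Q : Finset (HeightOneSpectrum (𝓞 K))) (hQS : Q ⊆ Sq hbot) (hQ : ∀ v ∈ Q, SplF art v)
    (hc : P.card + Q.card + 1 ≤ Fintype.card (InfinitePlace K) + (Sq hbot).card) :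
    OrdGe htop art (P.card + Q.card) := by
  classical
  intro χ L hL hL1
  by_cases hχ : χ = 1
  · subst hχ
    have hr : (Fintype.card (InfinitePlace K) + (Sq hbot).card - 1) + 1 =
        (Finset.univ : Finset (InfinitePlace K)).card + (Sq hbot).card := by
      rw [Finset.card_univ]
      omega
    have h1 := ord_one (tr_ray (K := K)) (Finset.Subset.refl (Sq hbot))
      (fun v _ => tr_one v.ne_bot) tr_pole (P := Finset.univ) (fun _ _ => rfl) hr hL
      (fun s hs => by rw [hL1 s hs, tr_LF hbot htop art hs])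
    refine le_trans ?_ h1
    have h2 : ((P.card + Q.card : ℕ) : ℤ) ≤
        ((Fintype.card (InfinitePlace K) + (Sq hbot).card - 1 : ℕ) : ℤ) := by
      have : P.card + Q.card ≤ Fintype.card (InfinitePlace K) + (Sq hbot).card - 1 := by omega
      exact_mod_cast this
    exact_mod_cast h2
  · obtain ⟨𝔣, e, ψ, -, h2, h3, h4⟩ := exists_ray hbot htop (χ.comp art) (fun x => by
      rw [MonoidHom.comp_apply]
      have h1 : art (Pool.Agent.N784.AD.pi1 htop x) = 1 := hT x x.2.1 x.2.2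
      rw [h1, map_one])
    have hχ' : ∀ x : Mq 𝔮, ψ (x : Ideal (𝓞 K)) = ((χ (art x) : ℂˣ) : ℂ) := h3
    have hLF : ∀ s : ℂ, 1 < s.re → LF htop art χ s = LS ψ (Sq hbot) s := by
      intro s hs
      unfold LF LS
      rw [← (LI_hasProd (et_norm htop art χ) hs).tprod_eq]
      refine tprod_congr fun v => ?_
      by_cases hv : v ∈ Sq hbot
      · rw [if_pos hv, et_neg htop art χ (fun h => (cop_iff hbot v).1 h hv), zero_mul, sub_zero,
          inv_one]
      · have h := (cop_iff hbot v).2 hv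
        rw [if_neg hv, et_pos htop art χ h, ← hχ' ⟨v.asIdeal, h⟩]
    have hp : rayPole ψ = 0 := by
      unfold rayPole
      rw [if_neg]
      intro h5
      apply hχ
      refine MonoidHom.ext fun g => ?_
      obtain ⟨𝔞, rfl⟩ := hs g
      have h6 := hχ' 𝔞
      rw [h5 _ (Mq_ne_bot htop 𝔞)] at h6
      rw [MonoidHom.one_apply]
      exact Units.ext h6.symm
    exact ord_zero h2 hQS (fun v hv => psi_v hbot (hQ v hv) (ray_prim h2) hχ') hp
      (fun w hw => h4 w fun x hx hv => by rw [MonoidHom.comp_apply, hP w hw x hx hv, map_one])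
      hL (fun s hs => by rw [hL1 s hs, hLF s hs])

/-- the place `p` of `S` splits completely -/
def Spl (art : Mq 𝔮 →* G) : InfinitePlace K ⊕ HeightOneSpectrum (𝓞 K) → Prop
  | .inl w => SplI art w
  | .inr v => v.asIdeal ∣ 𝔮 ∧ SplF art v

theorem ordGe_V (hbot : 𝔮 ≠ ⊥) (htop : 𝔮 ≠ ⊤) {art : Mq 𝔮 →* G}
    (hs : Function.Surjective art) (hT : Triv art)
    (V : Finset (InfinitePlace K ⊕ HeightOneSpectrum (𝓞 K))) (hV : ∀ p ∈ V, Spl art p)
    (hc : V.card + 1 ≤ Fintype.card (InfinitePlace K) +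
      {v : HeightOneSpectrum (𝓞 K) | v.asIdeal ∣ 𝔮}.ncard) :
    OrdGe htop art V.card := by
  classical
  have h1 : {v : HeightOneSpectrum (𝓞 K) | v.asIdeal ∣ 𝔮}.ncard = (Sq hbot).card := by
    have : {v : HeightOneSpectrum (𝓞 K) | v.asIdeal ∣ 𝔮} = (Sq hbot : Set _) := by
      ext v
      rw [Finset.mem_coe, mem_Sq]
      rfl
    rw [this, Set.ncard_coe_finset]
  have h2 : V.toLeft.card + V.toRight.card = V.card := Finset.card_toLeft_add_card_toRight
  have h3 := ordGe_gen hbot htop hs hT V.toLeft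
    (fun w hw => hV (.inl w) (Finset.mem_toLeft.1 hw)) V.toRight
    (fun v hv => (mem_Sq hbot v).2 (hV (.inr v) (Finset.mem_toRight.1 hv)).1)
    (fun v hv => (hV (.inr v) (Finset.mem_toRight.1 hv)).2) (by rw [h2, ← h1]; exact hc)
  rwa [h2] at h3

/-- `|S| ≥ 2` -/
theorem two_le_S (hbot : 𝔮 ≠ ⊥) (htop : 𝔮 ≠ ⊤) : 1 + 1 ≤ Fintype.card (InfinitePlace K) +
    {v : HeightOneSpectrum (𝓞 K) | v.asIdeal ∣ 𝔮}.ncard := by
  have h1 : {v : HeightOneSpectrum (𝓞 K) | v.asIdeal ∣ 𝔮} = (Sq hbot : Set _) := by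
    ext v
    rw [Finset.mem_coe, mem_Sq]
    rfl
  rw [h1, Set.ncard_coe_finset]
  have h2 := (Sq_nonempty hbot htop).card_pos
  have h3 : 0 < Fintype.card (InfinitePlace K) := Fintype.card_pos
  omega

end Pool.Agent.N739.SU
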