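import Pool.Agent.N41.RM.Hk

/-! # The order of vanishing at `0` (helper739) -/

set_option autoImplicit false
set_option linter.unusedSectionVars false

open NumberField Complex Filter Topology Set IsDedekindDomain

namespace Pool.Agent.N739.SU

open Pool.Agent.Y773 Pool.Agent.Y773.G
open Pool.Agent.R362.HL Pool.Agent.R362.Near
open Pool.Agent.N41.RM (LS LS_eq mero_unique)

variable {K : Type} [Field K] [NumberField K] {𝔣 : Ideal (𝓞 K)} {e : InfinitePlace K → ℕ}
  {ψ : Ideal (𝓞 K) →*₀ ℂ}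

/-- `1 / Γ_ℝ(s) = s γ(s)` -/
noncomputable def gam (s : ℂ) : ℂ := 2⁻¹ * ((Real.pi : ℂ) ^ (s / 2) * (Complex.Gamma (s / 2 + 1))⁻¹)

lemma gam_diff : Differentiable ℂ gam := by
  unfold gam
  have hpi : (Real.pi : ℂ) ≠ 0 := by exact_mod_cast Real.pi_ne_zero
  have h1 : Differentiable ℂ fun s : ℂ => (Real.pi : ℂ) ^ (s / 2) := fun s =>
    DifferentiableAt.const_cpow (by fun_prop) (Or.inl hpi)
  have h2 : Differentiable ℂ fun s : ℂ => (Complex.Gamma (s / 2 + 1))⁻¹ :=
    Complex.differentiable_one_div_Gamma.comp (by fun_prop : Differentiable ℂ fun s : ℂ => s / 2 + 1)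
  exact (h1.mul h2).const_mul _

lemma gam_eq {s : ℂ} (hs : s ≠ 0) : (Gammaℝ s)⁻¹ = s * gam s := by
  unfold gam
  rw [Complex.Gammaℝ_def, Complex.Gamma_add_one _ (div_ne_zero hs two_ne_zero), mul_inv, mul_inv,
    neg_div, Complex.cpow_neg, inv_inv]
  field_simp

/-- the factor at the embedding `φ` without the zero -/
noncomputable def gph (e : InfinitePlace K → ℕ) (φ : K →+* ℂ) (s : ℂ) : ℂ :=
  if ex e φ = 0 then gam s else (Gammaℝ (s + (ex e φ : ℕ)))⁻¹

lemma gph_diff (e : InfinitePlace K → ℕ) (φ : K →+* ℂ) : Differentiable ℂ (gph e φ) := by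
  unfold gph
  split_ifs
  · exact gam_diff
  · exact Complex.differentiable_Gammaℝ_inv.comp (differentiable_id.add_const _)

open Classical in
lemma prod_gph (e : InfinitePlace K → ℕ) {s : ℂ} (hs : s ≠ 0) :
    ∏ φ : K →+* ℂ, (Gammaℝ (s + (ex e φ : ℕ)))⁻¹ =
      s ^ (Finset.univ.filter fun φ : K →+* ℂ => ex e φ = 0).card * ∏ φ : K →+* ℂ, gph e φ s := by
  rw [Finset.card_filter, ← Finset.prod_pow_eq_pow_sum, ← Finset.prod_mul_distrib]
  refine Finset.prod_congr rfl fun φ _ => ?_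
  unfold gph
  by_cases h : ex e φ = 0
  · rw [if_pos h, if_pos h, h, Nat.cast_zero, add_zero, pow_one, gam_eq hs]
  · rw [if_neg h, if_neg h, pow_zero, one_mul]

open Classical in
lemma card_le {P : Finset (InfinitePlace K)} (hP : ∀ w ∈ P, e w = 0) :
    P.card ≤ (Finset.univ.filter fun φ : K →+* ℂ => ex e φ = 0).card := by
  refine Finset.card_le_card_of_injOn (fun w => w.embedding) ?_ ?_
  · intro w hw
    have hw' : w ∈ P := hw
    rw [Finset.coe_filter]
    refine ⟨Finset.mem_univ _, ?_⟩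
    unfold ex
    simp only [InfinitePlace.mk_embedding]
    split_ifs
    · exact hP w hw'
    · rfl
  · intro w _ v _ h
    have h1 : w.embedding = v.embedding := h
    rw [← InfinitePlace.mk_embedding w, h1, InfinitePlace.mk_embedding]

lemma cpow_diff' {q : ℂ} (hq : q ≠ 0) (c : ℂ) : Differentiable ℂ fun s : ℂ => 1 - c * q ^ (-s) := by
  intro s
  exact (differentiableAt_const _).sub ((differentiableAt_const _).mul
    ((differentiableAt_id.neg).const_cpow (Or.inl hq)))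

lemma nm_ne (v : HeightOneSpectrum (𝓞 K)) : (((Ideal.absNorm v.asIdeal : ℕ) : ℂ)) ≠ 0 := by
  have h3 : Ideal.absNorm v.asIdeal ≠ 0 := fun h1 =>
    v.prime.ne_zero (Ideal.absNorm_eq_zero_iff.mp h1)
  exact_mod_cast h3

/-- the L-function near `0` -/
theorem exists_fac (h : IsRay 𝔣 e ψ) {S : Finset (HeightOneSpectrum (𝓞 K))} (hS : S.Nonempty)
    {P : Finset (InfinitePlace K)} (hP : ∀ w ∈ P, e w = 0) {L : ℂ → ℂ}
    (hL : ∀ s, MeromorphicAt L s) (hL1 : ∀ s : ℂ, 1 < s.re → L s = LS ψ S s) :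
    ∃ A : ℂ → ℂ, AnalyticAt ℂ A 0 ∧ L =ᶠ[𝓝[≠] 0] fun s => s ^ P.card * A s := by
  classical
  obtain ⟨hψ, X, hX⟩ := h.xi
  have hR0 : 0 < rayCond 𝔣 := by linarith [hX.one_le]
  have hRc : (rayCond 𝔣 : ℂ) ≠ 0 := by exact_mod_cast hR0.ne'
  set r0 := (Finset.univ.filter fun φ : K →+* ℂ => ex e φ = 0).card with hr0
  obtain ⟨k, hk⟩ : ∃ k, r0 = P.card + k := ⟨r0 - P.card, by have := card_le hP; omega⟩
  -- the Euler factors
  obtain ⟨v0, hv0⟩ := hS
  set E : ℂ → ℂ := fun s => ∏ v ∈ S, (1 - ψ v.asIdeal * ((Ideal.absNorm v.asIdeal : ℕ) : ℂ) ^ (-s))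
    with hE
  have hEd : Differentiable ℂ E := by
    rw [hE]
    exact Differentiable.fun_finsetProd fun v _ => cpow_diff' (nm_ne v) _
  obtain ⟨B, hB, hBE⟩ : ∃ B : ℂ → ℂ, AnalyticAt ℂ B 0 ∧ ∀ᶠ s in 𝓝[≠] (0 : ℂ),
      E s / (s * (s - 1)) ^ rayPole ψ = B s := by
    by_cases h1 : ∀ 𝔞 : Ideal (𝓞 K), 𝔞 ≠ ⊥ → ψ 𝔞 = 1
    · have hp : rayPole ψ = 1 := by unfold rayPole; rw [if_pos h1]
      have hE0 : E 0 = 0 := by
        rw [hE]
        simp only
        refine Finset.prod_eq_zero hv0 ?_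
        rw [h1 _ v0.ne_bot, neg_zero, Complex.cpow_zero]
        ring
      have hd : Differentiable ℂ (dslope E 0) := by
        rw [← differentiableOn_univ, Complex.differentiableOn_dslope Filter.univ_mem]
        exact hEd.differentiableOn
      refine ⟨fun s => dslope E 0 s / (s - 1), ?_, ?_⟩
      · refine (hd.analyticAt 0).div (by fun_prop) ?_
        norm_num
      · filter_upwards [self_mem_nhdsWithin] with s hs
        have hs' : s ≠ 0 := hs
        have h2 : E s = s * dslope E 0 s := by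
          have := sub_smul_dslope E 0 s
          rw [hE0, sub_zero, sub_zero, smul_eq_mul] at this
          exact this.symm
        rw [hp, pow_one, h2, mul_div_mul_left _ _ hs']
    · have hp : rayPole ψ = 0 := by unfold rayPole; rw [if_neg h1]
      exact ⟨E, hEd.analyticAt 0, Eventually.of_forall fun s => by rw [hp, pow_zero, div_one]⟩
  set M : ℂ → ℂ := fun z => X z * ginf (rayCond 𝔣) e z / (z * (z - 1)) ^ rayPole ψ * E z with hM
  have hMm : ∀ s, MeromorphicAt M s := by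
    intro s
    have h1 : AnalyticAt ℂ X s := hX.diff.analyticAt s
    have h2 : AnalyticAt ℂ (ginf (rayCond 𝔣) e) s := (ginf_diff hR0).analyticAt s
    have h3 : AnalyticAt ℂ (fun z : ℂ => (z * (z - 1)) ^ rayPole ψ) s := by fun_prop
    exact ((h1.mul h2).meromorphicAt.div h3.meromorphicAt).mul (hEd.analyticAt s).meromorphicAt
  have hM1 : ∀ z : ℂ, 1 < z.re → L z = M z := by
    intro z hz
    rw [hL1 z hz, LS_eq hψ S hz, hM]
    simp only
    congr 1
    rw [hX.eq z hz, ginf, Finset.prod_inv_distrib, Complex.cpow_neg]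
    have hp : ∏ φ : K →+* ℂ, Gammaℝ (z + (ex e φ : ℕ)) ≠ 0 :=
      Finset.prod_ne_zero_iff.2 fun φ _ => Gammaℝ_ne_zero_of_re_pos (by
        rw [Complex.add_re, Complex.natCast_re]
        have : (0 : ℝ) ≤ (ex e φ : ℕ) := Nat.cast_nonneg _
        linarith)
    have hc : (rayCond 𝔣 : ℂ) ^ (z / 2) ≠ 0 := by
      rw [Ne, Complex.cpow_eq_zero_iff]
      exact fun h => hRc h.1
    have h0 : (z * (z - 1)) ^ rayPole ψ ≠ 0 := by
      refine pow_ne_zero _ (mul_ne_zero ?_ ?_)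
      · rintro rfl
        norm_num at hz
      · rw [sub_ne_zero]
        rintro rfl
        norm_num at hz
    field_simp
  have hLM := mero_unique hL hMm hM1 0
  refine ⟨fun s => s ^ k * (X s * ((rayCond 𝔣 : ℂ) ^ (-(s / 2)) * ∏ φ : K →+* ℂ, gph e φ s) * B s),
    ?_, ?_⟩
  · have h1 : AnalyticAt ℂ (fun s : ℂ => ∏ φ : K →+* ℂ, gph e φ s) 0 :=
      Finset.analyticAt_fun_prod _ fun φ _ => (gph_diff e φ).analyticAt 0
    have h2 : AnalyticAt ℂ (fun s : ℂ => (rayCond 𝔣 : ℂ) ^ (-(s / 2))) 0 := by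
      have : Differentiable ℂ fun s : ℂ => (rayCond 𝔣 : ℂ) ^ (-(s / 2)) := fun s =>
        DifferentiableAt.const_cpow (by fun_prop) (Or.inl hRc)
      exact this.analyticAt 0
    have h3 : AnalyticAt ℂ (fun s : ℂ => s ^ k) 0 := by fun_prop
    exact h3.mul (((hX.diff.analyticAt 0).mul (h2.mul h1)).mul hB)
  · filter_upwards [hLM, hBE, self_mem_nhdsWithin] with s h1 h2 h3
    have hs : s ≠ 0 := h3
    rw [h1, hM]
    simp only
    rw [← h2, ginf, prod_gph e hs, ← hr0, hk, pow_add]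
    ring

theorem ord_le (h : IsRay 𝔣 e ψ) {S : Finset (HeightOneSpectrum (𝓞 K))} (hS : S.Nonempty)
    {P : Finset (InfinitePlace K)} (hP : ∀ w ∈ P, e w = 0) {L : ℂ → ℂ}
    (hL : ∀ s, MeromorphicAt L s) (hL1 : ∀ s : ℂ, 1 < s.re → L s = LS ψ S s) :
    ((P.card : ℤ) : WithTop ℤ) ≤ meromorphicOrderAt L 0 := by
  obtain ⟨A, hA, hLA⟩ := exists_fac h hS hP hL hL1
  rw [meromorphicOrderAt_congr hLA]
  have h1 : MeromorphicAt (fun s : ℂ => s ^ P.card) 0 := by fun_prop
  have h2 : meromorphicOrderAt (fun s : ℂ => s ^ P.card * A s) 0 =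
      meromorphicOrderAt (fun s : ℂ => s ^ P.card) 0 + meromorphicOrderAt A 0 :=
    meromorphicOrderAt_mul h1 hA.meromorphicAt
  rw [h2]
  have h3 : meromorphicOrderAt (fun s : ℂ => s ^ P.card) 0 = ((P.card : ℤ) : WithTop ℤ) := by
    rw [meromorphicOrderAt_eq_int_iff h1]
    refine ⟨fun _ => 1, analyticAt_const, one_ne_zero, Eventually.of_forall fun s => ?_⟩
    simp
  rw [h3]
  exact le_add_of_nonneg_right hA.meromorphicOrderAt_nonneg

end Pool.Agent.N739.SU
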