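import Pool.Agent.N784.AD.Ray
import Pool.Agent.Y772.HG.Sgn
import Pool.Agent.R362.HkCls

/-! # Every character of a narrow ray class group is induced by a primitive character with a
signature, the unramified case included (helper739) -/

set_option autoImplicit false
set_option linter.unusedSectionVars false

open NumberField

namespace Pool.Agent.N739.SU

open Pool.Agent.Y773 (TPos)
open Pool.Agent.Y767 (Mq Mq_cop Mq_ne_bot Mq_cancel ext_mon tpos_one tpos_mul tpos_of_mul)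
open Pool.Agent.Y773.IQ (ne_zero_of_cop cop_mono cop_one cop_congr cop_mul)
open Pool.Agent.Y773.G (IsPrimChar rl sg)
open Pool.Agent.N784.AD (T1 pi1 pi1_coe exists_mem_one_tp cop_ne_bot)
open Pool.Agent.R362.HL (IsRay signs signs_eq)

variable {K : Type} [Field K] [NumberField K]

/-- totally positive nonzero integers -/
def Tp (K : Type) [Field K] [NumberField K] : Submonoid (𝓞 K) where
  carrier := {x | x ≠ 0 ∧ TPos K x}
  mul_mem' {x y} hx hy := ⟨mul_ne_zero hx.1 hy.1, tpos_mul hx.2 hy.2⟩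
  one_mem' := ⟨one_ne_zero, tpos_one⟩

/-- nonzero ideals -/
abbrev Nz (K : Type) [Field K] [NumberField K] : Submonoid (Ideal (𝓞 K)) :=
  nonZeroDivisors (Ideal (𝓞 K))

lemma nz_cancel : IsCancelMul (Nz K) where
  mul_left_cancel x y z h := by
    apply Subtype.ext
    exact mul_left_cancel₀ (nonZeroDivisors.coe_ne_zero x) (congrArg Subtype.val h)
  mul_right_cancel x y z h := by
    apply Subtype.ext
    exact mul_right_cancel₀ (nonZeroDivisors.coe_ne_zero x) (congrArg Subtype.val h)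

/-- principal ideals -/
def pr0 (K : Type) [Field K] [NumberField K] : Tp K →* Nz K where
  toFun x := ⟨Ideal.span {(x : 𝓞 K)}, mem_nonZeroDivisors_iff_ne_zero.2 (by
    rw [Ne, Ideal.zero_eq_bot, Ideal.span_singleton_eq_bot]; exact x.2.1)⟩
  map_one' := by
    apply Subtype.ext
    change Ideal.span {(1 : 𝓞 K)} = 1
    rw [Ideal.span_singleton_one, Ideal.one_eq_top]
  map_mul' x y := by
    apply Subtype.ext
    change Ideal.span {(x : 𝓞 K) * (y : 𝓞 K)} = _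
    rw [← Ideal.span_singleton_mul_span_singleton]
    rfl

/-- the map `(𝔞, x) ↦ 𝔞 (x)` -/
noncomputable def pi0 {𝔮 : Ideal (𝓞 K)} (h : 𝔮 ≠ ⊤) : (Mq 𝔮 × Tp K) →* Nz K :=
  (Submonoid.inclusion (show Mq 𝔮 ≤ Nz K from fun x h1 =>
    mem_nonZeroDivisors_iff_ne_zero.2 (Mq_ne_bot h ⟨x, h1⟩))).coprod (pr0 K)

lemma pi0_coe {𝔮 : Ideal (𝓞 K)} (h : 𝔮 ≠ ⊤) (𝔞 : Mq 𝔮) (x : Tp K) :
    ((pi0 h (𝔞, x) : Nz K) : Ideal (𝓞 K)) = (𝔞 : Ideal (𝓞 K)) * Ideal.span {(x : 𝓞 K)} := by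
  unfold pi0
  rw [MonoidHom.coprod_apply, Submonoid.coe_mul, Submonoid.coe_inclusion]
  rfl

theorem ext0 {𝔮 : Ideal (𝓞 K)} (hbot : 𝔮 ≠ ⊥) (htop : 𝔮 ≠ ⊤) (F : Mq 𝔮 →* ℂˣ)
    (h1 : ∀ (x : 𝓞 K) (hx : IsCoprime (Ideal.span {x}) 𝔮), TPos K x →
      F ⟨Ideal.span {x}, hx⟩ = 1) :
    ∃ F' : Nz K →* ℂˣ, ∀ p : Mq 𝔮 × Tp K, F' (pi0 htop p) = F p.1 := by
  have := nz_cancel (K := K)
  refine ext_mon (pi0 htop) (F.comp (MonoidHom.fst _ _)) ?_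
  rintro ⟨𝔞, x⟩ ⟨𝔟, y⟩ hab
  rw [MonoidHom.comp_apply, MonoidHom.comp_apply, MonoidHom.coe_fst]
  have hab' := congrArg Subtype.val hab
  rw [pi0_coe, pi0_coe] at hab'
  obtain ⟨x', 𝔠, hx1, hxp', hx2, hx3⟩ := exists_mem_one_tp (Mq_cop 𝔟)
    (cop_ne_bot htop (Mq_cop 𝔟)) hbot
  have h2 : (𝔞 : Ideal (𝓞 K)) * 𝔠 * Ideal.span {(x : 𝓞 K)} = Ideal.span {x' * (y : 𝓞 K)} := by
    rw [← Ideal.span_singleton_mul_span_singleton, hx2, mul_right_comm, hab']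
    ring
  have h3 : x' * (y : 𝓞 K) ∈ Ideal.span {(x : 𝓞 K)} := by
    have h4 : Ideal.span {x' * (y : 𝓞 K)} ≤ Ideal.span {(x : 𝓞 K)} := by
      rw [← h2]; exact Ideal.mul_le_right
    exact h4 (Ideal.mem_span_singleton_self _)
  obtain ⟨y', hy'⟩ := Ideal.mem_span_singleton'.mp h3
  have h5 : (𝔞 : Ideal (𝓞 K)) * 𝔠 = Ideal.span {y'} := by
    apply mul_right_cancel₀ (b := Ideal.span {(x : 𝓞 K)})
    · rw [Ne, Ideal.zero_eq_bot, Ideal.span_singleton_eq_bot]; exact x.2.1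
    · rw [h2, Ideal.span_singleton_mul_span_singleton, hy']
  have hcop : IsCoprime (Ideal.span {y'}) 𝔮 := by
    rw [← h5]; exact IsCoprime.mul_left (Mq_cop 𝔞) hx3
  have htp : TPos K y' := by
    apply tpos_of_mul x.2.2
    rw [mul_comm, hy']
    exact tpos_mul hxp' y.2.2
  have e1 := h1 y' hcop htp
  have e2 := h1 x' (cop_one hx1) hxp'
  have e3 : 𝔞 * ⟨𝔠, hx3⟩ = (⟨Ideal.span {y'}, hcop⟩ : Mq 𝔮) := Subtype.ext h5
  have e4 : 𝔟 * ⟨𝔠, hx3⟩ = (⟨Ideal.span {x'}, cop_one hx1⟩ : Mq 𝔮) := Subtype.ext hx2.symm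
  rw [← e3, map_mul] at e1
  rw [← e4, map_mul] at e2
  exact mul_right_cancel (e1.trans e2.symm)

/-- a character of the nonzero ideals -/
noncomputable def of0 (F : Nz K →* ℂˣ) : Ideal (𝓞 K) →*₀ ℂ := by
  classical
  exact {
    toFun := fun 𝔞 => if h : 𝔞 ∈ Nz K then ((F ⟨𝔞, h⟩ : ℂˣ) : ℂ) else 0
    map_zero' := by
      rw [dif_neg]
      intro h
      exact (mem_nonZeroDivisors_iff_ne_zero.1 h) rfl
    map_one' := by
      rw [dif_pos (one_mem _)]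
      have : (⟨1, one_mem _⟩ : Nz K) = 1 := rfl
      rw [this, map_one, Units.val_one]
    map_mul' := fun 𝔞 𝔟 => by
      by_cases ha : 𝔞 ∈ Nz K
      · by_cases hb : 𝔟 ∈ Nz K
        · rw [dif_pos ha, dif_pos hb, dif_pos (mul_mem ha hb)]
          have : (⟨𝔞 * 𝔟, mul_mem ha hb⟩ : Nz K) = ⟨𝔞, ha⟩ * ⟨𝔟, hb⟩ := rfl
          rw [this, map_mul, Units.val_mul]
        · rw [dif_neg hb, mul_zero, dif_neg]
          intro h
          apply hb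
          rw [mem_nonZeroDivisors_iff_ne_zero] at h ⊢
          exact right_ne_zero_of_mul h
      · rw [dif_neg ha, zero_mul, dif_neg]
        intro h
        apply ha
        rw [mem_nonZeroDivisors_iff_ne_zero] at h ⊢
        exact left_ne_zero_of_mul h }

open Classical in
lemma of0_pos (F : Nz K →* ℂˣ) {𝔞 : Ideal (𝓞 K)} (h : 𝔞 ∈ Nz K) :
    of0 F 𝔞 = ((F ⟨𝔞, h⟩ : ℂˣ) : ℂ) := by
  change (if h : 𝔞 ∈ Nz K then ((F ⟨𝔞, h⟩ : ℂˣ) : ℂ) else 0) = _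
  rw [dif_pos h]

theorem prim0 {𝔮 : Ideal (𝓞 K)} (hbot : 𝔮 ≠ ⊥) (htop : 𝔮 ≠ ⊤) (F : Mq 𝔮 →* ℂˣ)
    (h1 : ∀ (x : 𝓞 K) (hx : IsCoprime (Ideal.span {x}) 𝔮), TPos K x →
      F ⟨Ideal.span {x}, hx⟩ = 1) :
    ∃ ψ : Ideal (𝓞 K) →*₀ ℂ, IsPrimChar K ⊤ ψ ∧
      ∀ x : Mq 𝔮, ψ (x : Ideal (𝓞 K)) = ((F x : ℂˣ) : ℂ) := by
  obtain ⟨F', hF'⟩ := ext0 hbot htop F h1
  refine ⟨of0 F', ⟨top_ne_bot, fun 𝔞 h0 => ?_, fun x hx0 _ hx => ?_, fun 𝔤 hg hg1 => ?_⟩,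
    fun x => ?_⟩
  · rw [of0_pos F' (mem_nonZeroDivisors_iff_ne_zero.2 h0)]
    refine ⟨fun _ => ?_, fun _ => Units.ne_zero _⟩
    rw [Ideal.isCoprime_iff_sup_eq, sup_top_eq]
  · have h2 : Ideal.span {x} ∈ Nz K := mem_nonZeroDivisors_iff_ne_zero.2 (by
      rw [Ne, Ideal.zero_eq_bot, Ideal.span_singleton_eq_bot]; exact hx0)
    rw [of0_pos F' h2]
    have h3 := hF' (1, ⟨x, hx0, hx⟩)
    have h4 : pi0 htop (1, ⟨x, hx0, hx⟩) = ⟨Ideal.span {x}, h2⟩ := by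
      apply Subtype.ext
      rw [pi0_coe, Submonoid.coe_one, one_mul]
    rw [h4, map_one] at h3
    rw [h3, Units.val_one]
  · exfalso
    apply hg1
    rw [← Ideal.one_eq_top] at hg
    exact Ideal.isUnit_iff.1 (isUnit_of_dvd_one hg)
  · have h2 : (x : Ideal (𝓞 K)) ∈ Nz K := mem_nonZeroDivisors_iff_ne_zero.2 (Mq_ne_bot htop x)
    rw [of0_pos F' h2]
    have h3 := hF' (x, 1)
    have h4 : pi0 htop (x, 1) = ⟨(x : Ideal (𝓞 K)), h2⟩ := by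
      apply Subtype.ext
      rw [pi0_coe, Submonoid.coe_one, Ideal.span_singleton_one, ← Ideal.one_eq_top, mul_one]
    rw [h4] at h3
    rw [h3]

/-- **every character of the narrow ray class group modulo `𝔮` is induced by a primitive ray class
character; its signature vanishes at the places which are not in the modulus** -/
theorem exists_ray {𝔮 : Ideal (𝓞 K)} (hbot : 𝔮 ≠ ⊥) (htop : 𝔮 ≠ ⊤) (F : Mq 𝔮 →* ℂˣ)
    (hF : ∀ x : T1 htop, F (pi1 htop x) = 1) :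
    ∃ (𝔣 : Ideal (𝓞 K)) (e : InfinitePlace K → ℕ) (ψ : Ideal (𝓞 K) →*₀ ℂ), 𝔣 ∣ 𝔮 ∧
      IsRay 𝔣 e ψ ∧ (∀ x : Mq 𝔮, ψ (x : Ideal (𝓞 K)) = ((F x : ℂˣ) : ℂ)) ∧
      ∀ w : InfinitePlace K, (∀ x : 𝓞 K, ∀ hx : x - 1 ∈ 𝔮,
        (∀ v : InfinitePlace K, v.IsReal → v ≠ w → 0 < (v.embedding (x : K)).re) →
          F ⟨Ideal.span {x}, cop_one hx⟩ = 1) → e w = 0 := by
  obtain ⟨𝔣, ψ, hd, hp, hψ⟩ : ∃ (𝔣 : Ideal (𝓞 K)) (ψ : Ideal (𝓞 K) →*₀ ℂ), 𝔣 ∣ 𝔮 ∧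
      IsPrimChar K 𝔣 ψ ∧ ∀ x : Mq 𝔮, ψ (x : Ideal (𝓞 K)) = ((F x : ℂˣ) : ℂ) := by
    rcases Pool.Agent.N784.AD.exists_prim hbot htop F hF with h | ⟨𝔣, ψ, h1, -, h2, h3⟩
    · obtain ⟨ψ, h1, h2⟩ := prim0 hbot htop F h
      refine ⟨⊤, ψ, ?_, h1, h2⟩
      rw [← Ideal.one_eq_top]
      exact one_dvd _
    · exact ⟨𝔣, ψ, h1, h2, h3⟩
  obtain ⟨e, he, hc, hs⟩ := Pool.Agent.Y772.G.t_sig K 𝔣 ψ hp.ne_bot hp.ray
  refine ⟨𝔣, e, ψ, hd, ⟨hp.ne_bot, he, hc, hp.supp, fun x h0 h1 => by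
    rw [hs x h0 h1, signs_eq hc], hp.prim⟩, hψ, fun w hw => ?_⟩
  obtain ⟨x, hx0, hx1, hx2, hx3⟩ := Pool.Agent.Y772.G.exists_neg hbot w
  by_cases hwr : w.IsReal
  swap
  · exact hc w (InfinitePlace.not_isReal_iff_isComplex.1 hwr)
  have h1 := hw x hx1 (fun v hv hvw => by
    have := hx3 v (fun _ => hvw)
    rwa [Pool.Agent.Y772.G.rl_real hv] at this)
  have h2 := hψ ⟨Ideal.span {x}, cop_one hx1⟩
  rw [h1, Units.val_one] at h2
  have h3 := hs x hx0 (Ideal.dvd_iff_le.1 hd hx1)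
  have h4 : ψ (Ideal.span {x}) = 1 := h2
  rw [h4] at h3
  have h5 : sg e (x : K) = (-1 : ℂ) ^ e w := by
    unfold sg
    rw [Finset.prod_eq_single w]
    · have := sign_neg (hx2 hwr)
      rw [this]
      norm_num
    · intro v _ hv
      have := sign_pos (hx3 v (fun _ => hv))
      rw [this]
      norm_num
    · intro h
      exact absurd (Finset.mem_univ w) h
  rw [h5] at h3
  have h6 := he w
  interval_cases h : e w
  · rfl
  · norm_num at h3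

end Pool.Agent.N739.SU
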