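import Pool.Agent.N739.SU.An
import Pool.Agent.N739.SU.Prim
import Pool.Agent.N739.SU.Ord

/-! # Partial zeta functions at `0` from the primes (helper739) -/

set_option autoImplicit false
set_option linter.unusedSectionVars false

open NumberField Complex Filter Topology IsDedekindDomain

namespace Pool.Agent.N739.SU

open Pool.Agent.Y773 (TPos LI)
open Pool.Agent.Y767 (Mq Mq_cop Mq_ne_bot)
open Pool.Agent.Y773.IQ (cop_one ofM' ofM'_pos ofM'_supp)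
open Pool.Agent.N784.AD (T1 pi1 T1_cop)
open Pool.Agent.R362.HL (IsRay)
open Pool.Agent.N41.RM (LS LI_hasProd ray_mero_S ray_ce LS_tprod rayA qv cterm mero_unique)
open Pool.Agent.W187.UR (Lam)

section sums

variable {ι : Type} (S : Finset ι) (c u : ℂ) (a b d : ι → ℂ)

theorem sum1 : c * ∑ i ∈ S, a i * (u * b i) = u * (c * ∑ i ∈ S, a i * b i) := by
  have h : ∑ i ∈ S, a i * (u * b i) = u * ∑ i ∈ S, a i * b i := by
    rw [Finset.mul_sum]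
    exact Finset.sum_congr rfl fun i _ => by ring
  rw [h]
  ring

theorem sum2 : c * ∑ i ∈ S, a i * (u * b i - d i) =
    u * (c * ∑ i ∈ S, a i * b i) - c * ∑ i ∈ S, a i * d i := by
  rw [← sum1, ← mul_sub, ← Finset.sum_sub_distrib]
  congr 1
  exact Finset.sum_congr rfl fun i _ => by ring

end sums

section orth

variable {G : Type} [CommGroup G] [Finite G]

instance finD : Finite (G →* ℂˣ) := Pool.Agent.Y767.finite_dual G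

open Classical in
/-- orthogonality -/
theorem orth [Fintype (G →* ℂˣ)] (a : G) :
    ∑ χ : G →* ℂˣ, ((χ a : ℂˣ) : ℂ) = if a = 1 then (Nat.card G : ℂ) else 0 := by
  by_cases ha : a = 1
  · rw [if_pos ha, ha]
    simp only [map_one, Units.val_one, Finset.sum_const, Finset.card_univ, nsmul_eq_mul, mul_one]
    rw [← Pool.Agent.Y767.card_dual G, Nat.card_eq_fintype_card]
  · rw [if_neg ha]
    have : NeZero (Monoid.exponent G) := ⟨Monoid.exponent_ne_zero_of_finite⟩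
    obtain ⟨χ₀, h0⟩ := CommGroup.exists_apply_ne_one_of_hasEnoughRootsOfUnity G ℂ ha
    have h1 : ∑ χ : G →* ℂˣ, ((χ a : ℂˣ) : ℂ) = ((χ₀ a : ℂˣ) : ℂ) * ∑ χ : G →* ℂˣ, ((χ a : ℂˣ) : ℂ) := by
      rw [Finset.mul_sum]
      refine (Fintype.sum_equiv (Equiv.mulLeft χ₀) _ _ fun χ => ?_).symm
      rw [Equiv.coe_mulLeft, MonoidHom.mul_apply, Units.val_mul]
    have h2 : (((χ₀ a : ℂˣ) : ℂ) - 1) * ∑ χ : G →* ℂˣ, ((χ a : ℂˣ) : ℂ) = 0 := by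
      rw [sub_mul, one_mul, ← h1, sub_self]
    rcases mul_eq_zero.1 h2 with h3 | h3
    · exact absurd (Units.ext (sub_eq_zero.1 h3)) h0
    · exact h3

/-- the values of a character have modulus one -/
theorem chi_norm (χ : G →* ℂˣ) (a : G) : ‖((χ a : ℂˣ) : ℂ)‖ = 1 := by
  have h1 : a ^ Nat.card G = 1 := pow_card_eq_one'
  have h2 : ((χ a : ℂˣ) : ℂ) ^ Nat.card G = 1 := by
    rw [← Units.val_pow_eq_pow_val, ← map_pow, h1, map_one, Units.val_one]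
  exact Complex.norm_eq_one_of_pow_eq_one h2 Nat.card_pos.ne'

end orth

variable {K : Type} [Field K] [NumberField K] {𝔮 : Ideal (𝓞 K)} {G : Type} [CommGroup G] [Finite G]

/-- `art` is trivial on the totally positive numbers congruent to one -/
def Triv (art : Mq 𝔮 →* G) : Prop :=
  ∀ x : 𝓞 K, ∀ hx : x - 1 ∈ 𝔮, TPos K x → art ⟨Ideal.span {x}, cop_one hx⟩ = 1

/-- the weight of the prime power `v^k`, `k = x.2 + 1` -/
noncomputable def wt (γ T : ℝ) (x : HeightOneSpectrum (𝓞 K) × ℕ) : ℂ :=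
  1 / (x.2 + 1) * (Complex.exp ((γ * ((x.2 + 1) * Real.log (Ideal.absNorm x.1.asIdeal) / T) : ℝ) *
    Complex.I) / (Real.Gamma (1 + (x.2 + 1) * Real.log (Ideal.absNorm x.1.asIdeal) / T) : ℂ))

/-- `v^k` is prime to `𝔮` and its class is `B` -/
def InC (art : Mq 𝔮 →* G) (B : G) (x : HeightOneSpectrum (𝓞 K) × ℕ) : Prop :=
  ∃ h : IsCoprime x.1.asIdeal 𝔮, art ⟨x.1.asIdeal, h⟩ ^ (x.2 + 1) = B

open Classical in
/-- the weighted number of the prime powers in the class `B` -/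
noncomputable def Pc (art : Mq 𝔮 →* G) (γ T : ℝ) (B : G) : ℂ :=
  ∑' x : HeightOneSpectrum (𝓞 K) × ℕ, if InC art B x then wt γ T x else 0

/-- the coefficient of `A` of the exponential in the group ring of `∑_B P(B) [B]` -/
noncomputable def Zc (art : Mq 𝔮 →* G) (γ T : ℝ) (A : G) : ℂ :=
  (Nat.card G : ℂ)⁻¹ * ∑ᶠ χ : G →* ℂˣ, ((χ A⁻¹ : ℂˣ) : ℂ) *
    Complex.exp (∑ᶠ B : G, ((χ B : ℂˣ) : ℂ) * Pc art γ T B)

open Classical in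
/-- the partial zeta function of the class `A` -/
noncomputable def pz (art : Mq 𝔮 →* G) (A : G) (s : ℂ) : ℂ :=
  ∑' 𝔞 : Ideal (𝓞 K), if (∃ h : IsCoprime 𝔞 𝔮, art ⟨𝔞, h⟩ = A) then
    ((Ideal.absNorm 𝔞 : ℕ) : ℂ) ^ (-s) else 0

/-- the extension by zero of a character -/
noncomputable def et (htop : 𝔮 ≠ ⊤) (art : Mq 𝔮 →* G) (χ : G →* ℂˣ) : Ideal (𝓞 K) →*₀ ℂ :=
  ofM' htop (χ.comp art)

lemma et_pos (htop : 𝔮 ≠ ⊤) (art : Mq 𝔮 →* G) (χ : G →* ℂˣ) {𝔞 : Ideal (𝓞 K)}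
    (h : IsCoprime 𝔞 𝔮) : et htop art χ 𝔞 = ((χ (art ⟨𝔞, h⟩) : ℂˣ) : ℂ) := ofM'_pos htop _ h

lemma et_neg (htop : 𝔮 ≠ ⊤) (art : Mq 𝔮 →* G) (χ : G →* ℂˣ) {𝔞 : Ideal (𝓞 K)}
    (h : ¬ IsCoprime 𝔞 𝔮) : et htop art χ 𝔞 = 0 := by
  by_contra h1
  exact h ((ofM'_supp htop (χ.comp art) 𝔞).1 h1)

lemma et_norm (htop : 𝔮 ≠ ⊤) (art : Mq 𝔮 →* G) (χ : G →* ℂˣ) (𝔞 : Ideal (𝓞 K)) :
    ‖et htop art χ 𝔞‖ ≤ 1 := by
  by_cases h : IsCoprime 𝔞 𝔮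
  · rw [et_pos htop art χ h, chi_norm]
  · rw [et_neg htop art χ h, norm_zero]
    exact zero_le_one

/-- the L-function of `χ` -/
noncomputable def LF (htop : 𝔮 ≠ ⊤) (art : Mq 𝔮 →* G) (χ : G →* ℂˣ) (s : ℂ) : ℂ :=
  LI (et htop art χ) s

/-- **orthogonality** -/
theorem pz_eq (htop : 𝔮 ≠ ⊤) (art : Mq 𝔮 →* G) (A : G) {s : ℂ} (hs : 1 < s.re) :
    pz art A s = (Nat.card G : ℂ)⁻¹ * ∑ᶠ χ : G →* ℂˣ, ((χ A⁻¹ : ℂˣ) : ℂ) * LF htop art χ s := by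
  classical
  have : Fintype (G →* ℂˣ) := Fintype.ofFinite _
  rw [finsum_eq_sum_of_fintype]
  have h1 : ∀ χ : G →* ℂˣ, ((χ A⁻¹ : ℂˣ) : ℂ) * LF htop art χ s =
      ∑' 𝔞 : Ideal (𝓞 K), ((χ A⁻¹ : ℂˣ) : ℂ) * (et htop art χ 𝔞 *
        ((Ideal.absNorm 𝔞 : ℕ) : ℂ) ^ (-s)) := fun χ => by
    rw [tsum_mul_left]; rfl
  rw [Finset.sum_congr rfl fun χ _ => h1 χ, ← Summable.tsum_finsetSum fun χ _ =>
    (Pool.Agent.Y773.G.summable_LI (et_norm htop art χ) hs).mul_left _, ← tsum_mul_left]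
  unfold pz
  refine tsum_congr fun 𝔞 => ?_
  have hG : (Nat.card G : ℂ) ≠ 0 := by exact_mod_cast Nat.card_pos.ne'
  by_cases h : IsCoprime 𝔞 𝔮
  · have h2 : ∀ χ : G →* ℂˣ, ((χ A⁻¹ : ℂˣ) : ℂ) * (et htop art χ 𝔞 *
        ((Ideal.absNorm 𝔞 : ℕ) : ℂ) ^ (-s)) = ((χ (A⁻¹ * art ⟨𝔞, h⟩) : ℂˣ) : ℂ) *
        ((Ideal.absNorm 𝔞 : ℕ) : ℂ) ^ (-s) := fun χ => by
      rw [et_pos htop art χ h, map_mul, Units.val_mul, mul_assoc]
    rw [Finset.sum_congr rfl fun χ _ => h2 χ, ← Finset.sum_mul, orth]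
    by_cases h3 : art ⟨𝔞, h⟩ = A
    · rw [if_pos ⟨h, h3⟩, if_pos (by rw [h3, inv_mul_cancel]), ← mul_assoc, inv_mul_cancel₀ hG,
        one_mul]
    · rw [if_neg (fun ⟨_, h4⟩ => h3 h4), if_neg (fun h4 => h3 (inv_mul_eq_one.1 h4).symm), zero_mul,
        mul_zero]
  · rw [if_neg (fun ⟨h1, _⟩ => h h1)]
    have h2 : ∀ χ : G →* ℂˣ, ((χ A⁻¹ : ℂˣ) : ℂ) * (et htop art χ 𝔞 *
        ((Ideal.absNorm 𝔞 : ℕ) : ℂ) ^ (-s)) = 0 := fun χ => by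
      rw [et_neg htop art χ h, zero_mul, mul_zero]
    rw [Finset.sum_congr rfl fun χ _ => h2 χ, Finset.sum_const_zero, mul_zero]

/-- the primes dividing the modulus -/
noncomputable def Sq (hbot : 𝔮 ≠ ⊥) : Finset (HeightOneSpectrum (𝓞 K)) :=
  (Ideal.finite_factors hbot).toFinset

lemma mem_Sq (hbot : 𝔮 ≠ ⊥) (v : HeightOneSpectrum (𝓞 K)) : v ∈ Sq hbot ↔ v.asIdeal ∣ 𝔮 := by
  unfold Sq
  rw [Set.Finite.mem_toFinset]
  rfl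

lemma cop_iff (hbot : 𝔮 ≠ ⊥) (v : HeightOneSpectrum (𝓞 K)) :
    IsCoprime v.asIdeal 𝔮 ↔ v ∉ Sq hbot := by
  rw [mem_Sq, Ideal.dvd_iff_le, Ideal.isCoprime_iff_sup_eq]
  constructor
  · intro h h1
    rw [sup_eq_left.2 h1] at h
    exact v.isPrime.ne_top h
  · intro h
    by_contra h1
    have h2 := v.isMaximal.eq_of_le h1 le_sup_left
    apply h
    rw [h2]
    exact le_sup_right

lemma Sq_nonempty (hbot : 𝔮 ≠ ⊥) (htop : 𝔮 ≠ ⊤) : (Sq hbot).Nonempty := by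
  obtain ⟨M, hM, hle⟩ := Ideal.exists_le_maximal 𝔮 htop
  refine ⟨⟨M, hM.isPrime, ?_⟩, (mem_Sq hbot _).2 (Ideal.dvd_iff_le.2 hle)⟩
  rintro rfl
  exact hbot (le_bot_iff.1 hle)

/-- the data of the primitive character -/
theorem exists_psi (hbot : 𝔮 ≠ ⊥) (htop : 𝔮 ≠ ⊤) {art : Mq 𝔮 →* G} (hT : Triv art)
    (χ : G →* ℂˣ) :
    ∃ (𝔣 : Ideal (𝓞 K)) (e : InfinitePlace K → ℕ) (ψ : Ideal (𝓞 K) →*₀ ℂ),
      IsRay 𝔣 e ψ ∧ (∀ v, ∀ h : IsCoprime (v : HeightOneSpectrum (𝓞 K)).asIdeal 𝔮,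
        ψ v.asIdeal = ((χ (art ⟨v.asIdeal, h⟩) : ℂˣ) : ℂ)) ∧
      (∀ w : InfinitePlace K, (∀ x : 𝓞 K, ∀ hx : x - 1 ∈ 𝔮,
        (∀ v : InfinitePlace K, v.IsReal → v ≠ w → 0 < (v.embedding (x : K)).re) →
          art ⟨Ideal.span {x}, cop_one hx⟩ = 1) → e w = 0) ∧
      ∀ s : ℂ, 1 < s.re → LF htop art χ s = LS ψ (Sq hbot) s := by
  obtain ⟨𝔣, e, ψ, -, h2, h3, h4⟩ := exists_ray hbot htop (χ.comp art) (fun x => by
    rw [MonoidHom.comp_apply]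
    have h1 : art (pi1 htop x) = 1 := hT x x.2.1 x.2.2
    rw [h1, map_one])
  refine ⟨𝔣, e, ψ, h2, fun v h => h3 ⟨v.asIdeal, h⟩, fun w hw => h4 w fun x hx hv => by
    rw [MonoidHom.comp_apply, hw x hx hv, map_one], fun s hs => ?_⟩
  unfold LF LS
  rw [← (LI_hasProd (et_norm htop art χ) hs).tprod_eq]
  refine tprod_congr fun v => ?_
  by_cases hv : v ∈ Sq hbot
  · rw [if_pos hv, et_neg htop art χ (fun h => (cop_iff hbot v).1 h hv), zero_mul, sub_zero, inv_one]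
  · have h := (cop_iff hbot v).2 hv
    rw [if_neg hv, et_pos htop art χ h]
    have := h3 ⟨v.asIdeal, h⟩
    rw [MonoidHom.comp_apply] at this
    rw [← this]

lemma cterm_one {ψ : Ideal (𝓞 K) →*₀ ℂ} (hbot : 𝔮 ≠ ⊥) {art : Mq 𝔮 →* G} {χ : G →* ℂˣ}
    (hψ : ∀ v, ∀ h : IsCoprime (v : HeightOneSpectrum (𝓞 K)).asIdeal 𝔮,
        ψ v.asIdeal = ((χ (art ⟨v.asIdeal, h⟩) : ℂˣ) : ℂ)) (γ T : ℝ)
    (x : HeightOneSpectrum (𝓞 K) × ℕ) (h : IsCoprime x.1.asIdeal 𝔮) :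
    cterm qv (rayA ψ (Sq hbot)) 0 γ T x =
      ((χ (art ⟨x.1.asIdeal, h⟩ ^ (x.2 + 1)) : ℂˣ) : ℂ) * wt γ T x := by
  unfold cterm wt
  rw [Fin.sum_univ_one]
  unfold rayA qv
  rw [if_neg ((cop_iff hbot _).1 h), hψ _ h, zero_mul, Complex.cpow_zero, mul_one, map_pow,
    Units.val_pow_eq_pow_val]
  ring

lemma cterm_zero (ψ : Ideal (𝓞 K) →*₀ ℂ) (hbot : 𝔮 ≠ ⊥) (γ T : ℝ)
    (x : HeightOneSpectrum (𝓞 K) × ℕ) (h : ¬ IsCoprime x.1.asIdeal 𝔮) :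
    cterm qv (rayA ψ (Sq hbot)) 0 γ T x = 0 := by
  unfold cterm
  rw [Fin.sum_univ_one]
  unfold rayA
  rw [if_pos (by by_contra h1; exact h ((cop_iff hbot _).2 h1)), zero_pow (Nat.succ_ne_zero _),
    zero_div, zero_mul]

open Classical in
/-- absolute convergence -/
theorem summ (hbot : 𝔮 ≠ ⊥) (htop : 𝔮 ≠ ⊤) {art : Mq 𝔮 →* G} (hT : Triv art) (γ : ℝ) {T : ℝ}
    (hT0 : 0 < T) (B : G) :
    Summable fun x : HeightOneSpectrum (𝓞 K) × ℕ => ‖if InC art B x then wt γ T x else 0‖ := by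
  obtain ⟨𝔣, e, ψ, h2, h3, -, -⟩ := exists_psi hbot htop hT 1
  have E := ray_ce h2.xi.1 (Sq hbot)
  refine Summable.of_nonneg_of_le (fun x => norm_nonneg _) (fun x => ?_)
    (E.cterm_summable 0 γ hT0)
  by_cases h : InC art B x
  · rw [if_pos h]
    obtain ⟨hc, -⟩ := h
    rw [cterm_one hbot h3 γ T x hc, MonoidHom.one_apply, Units.val_one, one_mul]
  · rw [if_neg h, norm_zero]
    exact norm_nonneg _

theorem W_eq (hbot : 𝔮 ≠ ⊥) (htop : 𝔮 ≠ ⊤) {art : Mq 𝔮 →* G} (hT : Triv art) {χ : G →* ℂˣ}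
    {ψ : Ideal (𝓞 K) →*₀ ℂ}
    (hψ : ∀ v, ∀ h : IsCoprime (v : HeightOneSpectrum (𝓞 K)).asIdeal 𝔮,
        ψ v.asIdeal = ((χ (art ⟨v.asIdeal, h⟩) : ℂˣ) : ℂ)) (γ : ℝ) {T : ℝ} (hT0 : 0 < T) :
    ∑' x, cterm qv (rayA ψ (Sq hbot)) 0 γ T x = ∑ᶠ B : G, ((χ B : ℂˣ) : ℂ) * Pc art γ T B := by
  classical
  have : Fintype G := Fintype.ofFinite _
  rw [finsum_eq_sum_of_fintype]
  unfold Pc
  simp_rw [← tsum_mul_left]
  rw [← Summable.tsum_finsetSum fun B _ => ((summ hbot htop hT γ hT0 B).of_norm).mul_left _]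
  refine tsum_congr fun x => ?_
  by_cases h : IsCoprime x.1.asIdeal 𝔮
  · rw [cterm_one hbot hψ γ T x h, Finset.sum_eq_single (art ⟨x.1.asIdeal, h⟩ ^ (x.2 + 1))]
    · rw [if_pos ⟨h, rfl⟩]
    · intro B _ hB
      rw [if_neg (fun ⟨_, h1⟩ => hB h1.symm), mul_zero]
    · intro h1
      exact absurd (Finset.mem_univ _) h1
  · rw [cterm_zero ψ hbot γ T x h]
    refine (Finset.sum_eq_zero fun B _ => ?_).symm
    rw [if_neg (fun ⟨h1, _⟩ => h h1), mul_zero]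

/-- `r` is a lower bound for the orders at `0` -/
def OrdGe (htop : 𝔮 ≠ ⊤) (art : Mq 𝔮 →* G) (r : ℕ) : Prop :=
  ∀ χ : G →* ℂˣ, ∀ L : ℂ → ℂ, (∀ s, MeromorphicAt L s) → (∀ s : ℂ, 1 < s.re → L s = LF htop art χ s) →
    ((r : ℤ) : WithTop ℤ) ≤ meromorphicOrderAt L 0

/-- the infinite places which split completely -/
theorem ordGe_of (hbot : 𝔮 ≠ ⊥) (htop : 𝔮 ≠ ⊤) {art : Mq 𝔮 →* G} (hT : Triv art)
    (P : Finset (InfinitePlace K)) (hP : ∀ w ∈ P, ∀ x : 𝓞 K, ∀ hx : x - 1 ∈ 𝔮,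
      (∀ v : InfinitePlace K, v.IsReal → v ≠ w → 0 < (v.embedding (x : K)).re) →
        art ⟨Ideal.span {x}, cop_one hx⟩ = 1) : OrdGe htop art P.card := by
  intro χ L hL hL1
  obtain ⟨𝔣, e, ψ, h1, -, h3, h4⟩ := exists_psi hbot htop hT χ
  exact ord_le h1 (Sq_nonempty hbot htop) (fun w hw => h3 w (hP w hw)) hL
    fun s hs => by rw [hL1 s hs, h4 s hs]

/-- one character -/
theorem one_char (hbot : 𝔮 ≠ ⊥) (htop : 𝔮 ≠ ⊤) {art : Mq 𝔮 →* G} (hT : Triv art) {r : ℕ}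
    (hr : OrdGe htop art r) {γ : ℝ} (hγ : Real.pi / 2 < γ) (χ : G →* ℂˣ) :
    ∃ (L : ℂ → ℂ) (D : ℂ), (∀ s, MeromorphicAt L s) ∧ (∀ s : ℂ, 1 < s.re → L s = LF htop art χ s) ∧
      Tendsto (fun s : ℂ => (s ^ r)⁻¹ * L s) (𝓝[≠] 0) (𝓝 D) ∧
      (fun T : ℝ => bs (Lam γ) T ^ r * cexp (∑ᶠ B : G, ((χ B : ℂˣ) : ℂ) * Pc art γ T B) - D)
        =O[atTop] (fun T : ℝ => 1 / T) := by
  obtain ⟨𝔣, e, ψ, h1, h2, -, h4⟩ := exists_psi hbot htop hT χ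
  obtain ⟨L, hL, hL1⟩ := ray_mero_S h1 (Sq hbot)
  have hL2 : ∀ s : ℂ, 1 < s.re → L s = LF htop art χ s := fun s hs => by rw [hL1 s hs, h4 s hs]
  have E := ray_ce h1.xi.1 (Sq hbot)
  obtain ⟨n, l, e1, e2, e3⟩ := E.law (F := L) 0 (fun x _ => hL _) (fun z hz => by
    rw [add_zero] at hz
    rw [hL1 z hz]
    exact LS_tprod ψ (Sq hbot) z) hγ
  have hrn : (r : ℤ) ≤ n := by
    have := hr χ L hL hL2
    rw [e1] at this
    exact_mod_cast this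
  refine ⟨L, if n = r then cexp l else 0, hL, hL2, ?_, ?_⟩
  · rw [e2]
    exact pt_lim (hL 0) e1 hrn
  · refine (law_lim hrn e3).congr' ?_ EventuallyEq.rfl
    filter_upwards [eventually_gt_atTop 0] with T hT0
    rw [W_eq hbot htop hT h2 γ hT0]

/-- `Z` is a continuation of the partial zeta function of `A` -/
def IsCont (art : Mq 𝔮 →* G) (A : G) (Z : ℂ → ℂ) : Prop :=
  (∀ s, MeromorphicAt Z s) ∧ ∀ s : ℂ, 1 < s.re → Z s = pz art A s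

/-- **Main theorem** -/
theorem main (hbot : 𝔮 ≠ ⊥) (htop : 𝔮 ≠ ⊤) {art : Mq 𝔮 →* G} (hT : Triv art) {r : ℕ}
    (hr : OrdGe htop art r) {γ : ℝ} (hγ : Real.pi / 2 < γ) :
    ∃ D : G → ℂ, ∀ A : G, (∃ Z, IsCont art A Z) ∧
      (∀ Z, IsCont art A Z → Tendsto (fun s : ℂ => (s ^ r)⁻¹ * Z s) (𝓝[≠] 0) (𝓝 (D A))) ∧
      (fun T : ℝ => bs (Lam γ) T ^ r * Zc art γ T A - D A) =O[atTop] (fun T : ℝ => 1 / T) := by
  classical
  have : Fintype (G →* ℂˣ) := Fintype.ofFinite _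
  choose L D h1 h2 h3 h4 using one_char hbot htop hT hr hγ
  refine ⟨fun A => (Nat.card G : ℂ)⁻¹ * ∑ χ : G →* ℂˣ, ((χ A⁻¹ : ℂˣ) : ℂ) * D χ, fun A => ?_⟩
  have hZ : IsCont art A (fun s => (Nat.card G : ℂ)⁻¹ * ∑ χ : G →* ℂˣ, ((χ A⁻¹ : ℂˣ) : ℂ) * L χ s) := by
    refine ⟨fun s => ?_, fun s hs => ?_⟩
    · refine (MeromorphicAt.const _ _).mul (MeromorphicAt.fun_sum fun χ _ => ?_)
      exact (MeromorphicAt.const _ _).mul (h1 χ s)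
    · rw [pz_eq htop art A hs, finsum_eq_sum_of_fintype]
      simp only
      rw [Finset.sum_congr rfl fun χ _ => by rw [h2 χ s hs]]
  refine ⟨⟨_, hZ⟩, fun Z hZ' => ?_, ?_⟩
  · have h5 := mero_unique hZ'.1 hZ.1 (A := 1) (fun s hs => (hZ'.2 s hs).trans (hZ.2 s hs).symm) 0
    have h6 : Tendsto (fun s : ℂ => (Nat.card G : ℂ)⁻¹ * ∑ χ : G →* ℂˣ, ((χ A⁻¹ : ℂˣ) : ℂ) *
        ((s ^ r)⁻¹ * L χ s)) (𝓝[≠] 0)
        (𝓝 ((Nat.card G : ℂ)⁻¹ * ∑ χ : G →* ℂˣ, ((χ A⁻¹ : ℂˣ) : ℂ) * D χ)) :=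
      (tendsto_finsetSum _ fun χ _ => (h3 χ).const_mul _).const_mul _
    refine h6.congr' ?_
    filter_upwards [h5] with s hs
    rw [hs]
    exact sum1 _ _ _ _ _
  · have h6 : (fun T : ℝ => (Nat.card G : ℂ)⁻¹ * ∑ χ : G →* ℂˣ, ((χ A⁻¹ : ℂˣ) : ℂ) *
        (bs (Lam γ) T ^ r * cexp (∑ᶠ B : G, ((χ B : ℂˣ) : ℂ) * Pc art γ T B) - D χ))
        =O[atTop] (fun T : ℝ => 1 / T) := by
      have h7 := (Asymptotics.IsBigO.sum (s := Finset.univ) fun χ _ =>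
        (h4 χ).const_mul_left ((χ A⁻¹ : ℂˣ) : ℂ)).const_mul_left ((Nat.card G : ℂ)⁻¹)
      refine h7.congr_left fun T => ?_
      simp only [Finset.sum_apply]
    refine h6.congr_left fun T => ?_
    unfold Zc
    rw [finsum_eq_sum_of_fintype]
    exact sum2 _ _ _ _ _ _

end Pool.Agent.N739.SU
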