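import Pool.Agent.N739.SU.Pages

/-! # Group ring valued L-functions with multipliers (helper739) -/

set_option autoImplicit false
set_option linter.unusedSectionVars false

open NumberField Complex Filter Topology IsDedekindDomain

namespace Pool.Agent.N739.SU

open Pool.Agent.Y773 (TPos LI)
open Pool.Agent.Y767 (Mq Mq_cop Mq_ne_bot)
open Pool.Agent.Y773.IQ (cop_one)
open Pool.Agent.N41.RM (LS LI_hasProd ray_mero_S ray_ce LS_tprod rayA qv cterm mero_unique)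
open Pool.Agent.W187.UR (Lam)

variable {K : Type} [Field K] [NumberField K] {𝔮 : Ideal (𝓞 K)} {G : Type} [CommGroup G] [Finite G]

/-- the coefficient of `g` of the element `Θ(s)` with `χ(Θ(s)) = c_{χ⁻¹}(s) L(s, χ⁻¹)` -/
noncomputable def th (htop : 𝔮 ≠ ⊤) (art : Mq 𝔮 →* G) (c : (G →* ℂˣ) → ℂ → ℂ) (g : G) (s : ℂ) : ℂ :=
  (Nat.card G : ℂ)⁻¹ * ∑ᶠ χ : G →* ℂˣ, ((χ g : ℂˣ) : ℂ) * (LF htop art χ s * c χ s)

theorem main2 (hbot : 𝔮 ≠ ⊥) (htop : 𝔮 ≠ ⊤) {art : Mq 𝔮 →* G} (hT : Triv art) {r : ℕ}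
    (hr : OrdGe htop art r) {γ : ℝ} (hγ : Real.pi / 2 < γ) {c : (G →* ℂˣ) → ℂ → ℂ}
    (hc : ∀ χ, Differentiable ℂ (c χ)) :
    ∃ D : G → ℂ, ∀ g : G,
      (∃ Z : ℂ → ℂ, (∀ s, MeromorphicAt Z s) ∧ ∀ s : ℂ, 1 < s.re → Z s = th htop art c g s) ∧
      (∀ Z : ℂ → ℂ, (∀ s, MeromorphicAt Z s) → (∀ s : ℂ, 1 < s.re → Z s = th htop art c g s) →
        Tendsto (fun s : ℂ => (s ^ r)⁻¹ * Z s) (𝓝[≠] 0) (𝓝 (D g))) ∧
      (fun T : ℝ => bs (Lam γ) T ^ r * ((Nat.card G : ℂ)⁻¹ * ∑ᶠ χ : G →* ℂˣ, ((χ g : ℂˣ) : ℂ) *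
        (c χ 0 * cexp (∑ᶠ B : G, ((χ B : ℂˣ) : ℂ) * Pc art γ T B))) - D g)
          =O[atTop] (fun T : ℝ => 1 / T) := by
  classical
  have : Fintype (G →* ℂˣ) := Fintype.ofFinite _
  choose L D h1 h2 h3 h4 using one_char hbot htop hT hr hγ
  refine ⟨fun g => (Nat.card G : ℂ)⁻¹ * ∑ χ : G →* ℂˣ, ((χ g : ℂˣ) : ℂ) * (D χ * c χ 0), fun g => ?_⟩
  set Z0 : ℂ → ℂ := fun s => (Nat.card G : ℂ)⁻¹ * ∑ χ : G →* ℂˣ, ((χ g : ℂˣ) : ℂ) * (L χ s * c χ s)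
    with hZ0
  have hm : ∀ s, MeromorphicAt Z0 s := by
    intro s
    refine (MeromorphicAt.const _ _).mul (MeromorphicAt.fun_sum fun χ _ => ?_)
    exact (MeromorphicAt.const _ _).mul ((h1 χ s).mul ((hc χ).analyticAt s).meromorphicAt)
  have he : ∀ s : ℂ, 1 < s.re → Z0 s = th htop art c g s := by
    intro s hs
    unfold th
    rw [finsum_eq_sum_of_fintype, hZ0]
    simp only
    rw [Finset.sum_congr rfl fun χ _ => by rw [h2 χ s hs]]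
  refine ⟨⟨Z0, hm, he⟩, fun Z hZ hZ' => ?_, ?_⟩
  · have h5 := mero_unique hZ hm (A := 1) (fun s hs => (hZ' s hs).trans (he s hs).symm) 0
    have h6 : Tendsto (fun s : ℂ => (Nat.card G : ℂ)⁻¹ * ∑ χ : G →* ℂˣ, ((χ g : ℂˣ) : ℂ) *
        ((s ^ r)⁻¹ * (L χ s * c χ s))) (𝓝[≠] 0)
        (𝓝 ((Nat.card G : ℂ)⁻¹ * ∑ χ : G →* ℂˣ, ((χ g : ℂˣ) : ℂ) * (D χ * c χ 0))) := by
      refine (tendsto_finsetSum _ fun χ _ => Tendsto.const_mul _ ?_).const_mul _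
      have h7 := (h3 χ).mul (((hc χ).continuous.tendsto 0).mono_left
        (nhdsWithin_le_nhds (s := {0}ᶜ)))
      exact h7.congr fun s => by ring
    refine h6.congr' ?_
    filter_upwards [h5] with s hs
    rw [hs]
    exact sum1 _ _ _ _ _
  · have h6 : (fun T : ℝ => (Nat.card G : ℂ)⁻¹ * ∑ χ : G →* ℂˣ, (((χ g : ℂˣ) : ℂ) * c χ 0) *
        (bs (Lam γ) T ^ r * cexp (∑ᶠ B : G, ((χ B : ℂˣ) : ℂ) * Pc art γ T B) - D χ))
        =O[atTop] (fun T : ℝ => 1 / T) := by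
      have h7 := (Asymptotics.IsBigO.sum (s := Finset.univ) fun χ _ =>
        (h4 χ).const_mul_left (((χ g : ℂˣ) : ℂ) * c χ 0)).const_mul_left ((Nat.card G : ℂ)⁻¹)
      refine h7.congr_left fun T => ?_
      simp only [Finset.sum_apply]
    refine h6.congr_left fun T => ?_
    rw [finsum_eq_sum_of_fintype]
    have e1 : ∀ χ : G →* ℂˣ, ((χ g : ℂˣ) : ℂ) * c χ 0 *
        (bs (Lam γ) T ^ r * cexp (∑ᶠ B : G, ((χ B : ℂˣ) : ℂ) * Pc art γ T B) - D χ) =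
        ((χ g : ℂˣ) : ℂ) * (bs (Lam γ) T ^ r * (c χ 0 * cexp (∑ᶠ B : G, ((χ B : ℂˣ) : ℂ) *
          Pc art γ T B)) - D χ * c χ 0) := fun χ => by ring
    rw [Finset.sum_congr rfl fun χ _ => e1 χ]
    exact sum2 _ _ _ _ _ _

/-- the Euler product of the L-function of `χ` -/
theorem LF_prod (htop : 𝔮 ≠ ⊤) (art : Mq 𝔮 →* G) (χ : G →* ℂˣ) {s : ℂ} (hs : 1 < s.re) :
    HasProd (fun v : HeightOneSpectrum (𝓞 K) => (1 - et htop art χ v.asIdeal *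
      ((Ideal.absNorm v.asIdeal : ℕ) : ℂ) ^ (-s))⁻¹) (LF htop art χ s) :=
  LI_hasProd (et_norm htop art χ) hs

end Pool.Agent.N739.SU
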