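import Pool.Agent.N739.SU.Main

/-! # Real embeddings and places (helper739) -/

set_option autoImplicit false
set_option linter.unusedSectionVars false

open NumberField Complex Filter Topology IsDedekindDomain

namespace Pool.Agent.N739.SU

open Pool.Agent.Y773 (TPos LI)
open Pool.Agent.Y767 (Mq Mq_cop Mq_ne_bot)
open Pool.Agent.Y773.IQ (cop_one)
open Pool.Agent.W187.UR (Lam)

variable {K : Type} [Field K] [NumberField K] {𝔮 : Ideal (𝓞 K)} {G : Type} [CommGroup G] [Finite G]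

/-- `art` is trivial on the numbers congruent to one which are positive at `Σ` -/
def TrivAt (Sg : Set (K →+* ℝ)) (art : Mq 𝔮 →* G) : Prop :=
  ∀ x : 𝓞 K, ∀ hx : x - 1 ∈ 𝔮, (∀ σ ∈ Sg, 0 < σ (x : K)) → art ⟨Ideal.span {x}, cop_one hx⟩ = 1

theorem TrivAt.triv {Sg : Set (K →+* ℝ)} {art : Mq 𝔮 →* G} (h : TrivAt Sg art) : Triv art :=
  fun x hx hp => h x hx fun σ _ => hp σ

/-- the place `w` is not in `Σ` -/
def Off (Sg : Set (K →+* ℝ)) (w : InfinitePlace K) : Prop :=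
  ∀ σ ∈ Sg, ¬ ∀ x : K, (w.embedding x).re = σ x

theorem TrivAt.ordGe (hbot : 𝔮 ≠ ⊥) (htop : 𝔮 ≠ ⊤) {Sg : Set (K →+* ℝ)} {art : Mq 𝔮 →* G}
    (h : TrivAt Sg art) (P : Finset (InfinitePlace K)) (hP : ∀ w ∈ P, Off Sg w) :
    OrdGe htop art P.card := by
  refine ordGe_of hbot htop h.triv P fun w hw x hx hv => h x hx fun σ hσ => ?_
  obtain ⟨v, hvr, hv1⟩ := Pool.Agent.Y772.G.exists_rl σ
  have h1 : ∀ y : K, (v.embedding y).re = σ y := fun y => by
    rw [← hv1 y, Pool.Agent.Y773.G.rl_of_isReal hvr]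
  have h2 : v ≠ w := by
    rintro rfl
    exact hP v hw σ hσ h1
  rw [← h1]
  exact hv v hvr h2

/-- the place of another real embedding -/
theorem off_real {σ₁ σ₂ : K →+* ℝ} (h : σ₁ ≠ σ₂) : ∃ w : InfinitePlace K, Off {σ₂} w := by
  obtain ⟨w, hwr, hw⟩ := Pool.Agent.Y772.G.exists_rl σ₁
  refine ⟨w, fun σ hσ h1 => h ?_⟩
  rw [Set.mem_singleton_iff] at hσ
  rw [hσ] at h1
  ext x
  rw [← hw x, Pool.Agent.Y773.G.rl_of_isReal hwr, h1]

/-- complex places -/
theorem off_cpx (Sg : Set (K →+* ℝ)) {w : InfinitePlace K} (hw : w.IsComplex) : Off Sg w := by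
  intro σ _ h
  -- the real part of the embedding would be multiplicative, so the imaginary part would vanish
  have h1 : ∀ x : K, (w.embedding x).im = 0 := by
    intro x
    have h2 := h (x * x)
    rw [map_mul, map_mul, Complex.mul_re, h x] at h2
    have h3 : (w.embedding x).im * (w.embedding x).im = 0 := by linarith
    exact mul_self_eq_zero.1 h3
  have h4 : w.IsReal := by
    rw [InfinitePlace.isReal_iff, ComplexEmbedding.isReal_iff]
    ext x
    rw [ComplexEmbedding.conjugate_coe_eq, Complex.conj_eq_iff_im]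
    exact h1 x
  exact InfinitePlace.not_isReal_iff_isComplex.2 hw h4

/-! ### the values are real -/

theorem mero_conj {f : ℂ → ℂ} {s : ℂ} (h : MeromorphicAt f ((starRingEnd ℂ) s)) :
    MeromorphicAt (fun z => (starRingEnd ℂ) (f ((starRingEnd ℂ) z))) s := by
  obtain ⟨n, hn⟩ := h
  refine ⟨n, ?_⟩
  have h1 : ∀ᶠ z in 𝓝 ((starRingEnd ℂ) s), DifferentiableAt ℂ
      (fun z => (z - (starRingEnd ℂ) s) ^ n • f z) z :=
    hn.eventually_analyticAt.mono fun z hz => hz.differentiableAt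
  have h2 := Complex.continuous_conj.continuousAt.eventually h1
  rw [Complex.analyticAt_iff_eventually_differentiableAt]
  filter_upwards [h2] with z hz
  have h3 := DifferentiableAt.star_star (𝕜 := ℂ) (z := (starRingEnd ℂ) z)
    (f := fun z => (z - (starRingEnd ℂ) s) ^ n • f z) hz
  rw [show star ((starRingEnd ℂ) z) = z from Complex.conj_conj z] at h3
  refine h3.congr_of_eventuallyEq (Eventually.of_forall fun w => ?_)
  simp [Function.comp_def]

theorem pz_conj (art : Mq 𝔮 →* G) (A : G) (s : ℂ) :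
    pz art A ((starRingEnd ℂ) s) = (starRingEnd ℂ) (pz art A s) := by
  classical
  unfold pz
  rw [Complex.conj_tsum]
  refine tsum_congr fun 𝔞 => ?_
  split_ifs
  · have harg : ((Ideal.absNorm 𝔞 : ℕ) : ℂ).arg ≠ Real.pi := by
      rw [Complex.natCast_arg]
      exact Real.pi_ne_zero.symm
    rw [← map_neg, Complex.cpow_conj _ _ harg, Complex.conj_natCast]
  · rw [map_zero]

theorem real_of {art : Mq 𝔮 →* G} {A : G} {r : ℕ} {D : ℂ} (h0 : ∃ Z, IsCont art A Z)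
    (h : ∀ Z, IsCont art A Z → Tendsto (fun s : ℂ => (s ^ r)⁻¹ * Z s) (𝓝[≠] 0) (𝓝 D)) :
    ((D.re : ℝ) : ℂ) = D := by
  obtain ⟨Z, hZ⟩ := h0
  have h1 : IsCont art A (fun z => (starRingEnd ℂ) (Z ((starRingEnd ℂ) z))) := by
    refine ⟨fun s => mero_conj (hZ.1 _), fun s hs => ?_⟩
    have hs' : 1 < ((starRingEnd ℂ) s).re := by rwa [Complex.conj_re]
    simp only
    rw [hZ.2 _ hs', pz_conj, Complex.conj_conj]
  have h2 := h _ h1
  have h3 : Tendsto (fun s : ℂ => (starRingEnd ℂ) s) (𝓝[≠] 0) (𝓝[≠] 0) := by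
    refine tendsto_nhdsWithin_iff.2 ⟨?_, ?_⟩
    · have := (Complex.continuous_conj.tendsto 0).mono_left (nhdsWithin_le_nhds (s := {0}ᶜ))
      rwa [map_zero] at this
    · filter_upwards [self_mem_nhdsWithin] with s hs
      have hs' : s ≠ 0 := hs
      exact (map_ne_zero (starRingEnd ℂ)).2 hs'
  have h4 := (Complex.continuous_conj.tendsto D).comp ((h Z hZ).comp h3)
  have h5 : (starRingEnd ℂ) D = D := by
    refine tendsto_nhds_unique h4 (h2.congr fun s => ?_)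
    simp [Function.comp_def]
  exact Complex.conj_eq_iff_re.1 h5

/-- limits along a sequence -/
theorem seq_lim {X : Type} {f : X → ℝ → ℂ} {a : X → ℂ} (h : ∀ A, Tendsto (f A) atTop (𝓝 (a A)))
    (c : X → ℂ) : (∀ A, c A = a A) ↔ ∃ t : ℕ → ℝ, Tendsto t atTop atTop ∧
      ∀ A, Tendsto (fun n => f A (t n)) atTop (𝓝 (c A)) := by
  constructor
  · intro h1
    refine ⟨fun n => (n : ℝ), tendsto_natCast_atTop_atTop, fun A => ?_⟩
    rw [h1 A]
    exact (h A).comp tendsto_natCast_atTop_atTop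
  · rintro ⟨t, ht, h1⟩ A
    exact tendsto_nhds_unique (h1 A) ((h A).comp ht)

theorem lim_of_O {f : ℝ → ℂ} {a : ℂ} (h : (fun T : ℝ => f T - a) =O[atTop] (fun T : ℝ => 1 / T)) :
    Tendsto f atTop (𝓝 a) := by
  have h1 : Tendsto (fun T : ℝ => f T - a) atTop (𝓝 0) := by
    refine h.trans_tendsto ?_
    simpa using tendsto_inv_atTop_zero (𝕜 := ℝ)
  have h2 := h1.add_const a
  simpa using h2

theorem char_main (hbot : 𝔮 ≠ ⊥) (htop : 𝔮 ≠ ⊤) {art : Mq 𝔮 →* G} (hT : Triv art) {r : ℕ}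
    (hr : OrdGe htop art r) {γ : ℝ} (hγ : Real.pi / 2 < γ) (χ : G →* ℂˣ) :
    ∃ D : ℂ, (∃ L : ℂ → ℂ, (∀ s, MeromorphicAt L s) ∧ ∀ s : ℂ, 1 < s.re → L s = LF htop art χ s) ∧
      (∀ L : ℂ → ℂ, (∀ s, MeromorphicAt L s) → (∀ s : ℂ, 1 < s.re → L s = LF htop art χ s) →
        Tendsto (fun s : ℂ => (s ^ r)⁻¹ * L s) (𝓝[≠] 0) (𝓝 D)) ∧
      (fun T : ℝ => bs (Lam γ) T ^ r * cexp (∑ᶠ B : G, ((χ B : ℂˣ) : ℂ) * Pc art γ T B) - D)
        =O[atTop] (fun T : ℝ => 1 / T) := by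
  obtain ⟨L, D, h1, h2, h3, h4⟩ := one_char hbot htop hT hr hγ χ
  refine ⟨D, ⟨L, h1, h2⟩, fun L' h1' h2' => ?_, h4⟩
  have h5 := Pool.Agent.N41.RM.mero_unique h1' h1 (A := 1) (fun s hs => by rw [h2' s hs, h2 s hs]) 0
  refine h3.congr' ?_
  filter_upwards [h5] with s hs
  rw [hs]

theorem log_iff' {X : Type} {f : X → ℝ → ℂ} {D : X → ℝ}
    (h : ∀ A, (fun T : ℝ => f A T - D A) =O[atTop] (fun T : ℝ => 1 / T)) (e : ℝ)
    {a : X → ℝ} (ha : ∀ A, 0 < a A) :
    (∀ A, Real.log (a A) = -e * D A) ↔ ∃ t : ℕ → ℝ, Tendsto t atTop atTop ∧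
      ∀ A, Tendsto (fun n => cexp (-e * f A (t n))) atTop (𝓝 (a A : ℂ)) := by
  have h1 : ∀ A, Tendsto (fun T => cexp (-e * f A T)) atTop (𝓝 (cexp (-e * D A))) := fun A =>
    lim_of_O (exp_isBigO (((h A).const_mul_left (-(e : ℂ))).congr_left fun T => by ring))
  rw [← seq_lim (f := fun A T => cexp (-e * f A T)) h1 (fun A => (a A : ℂ))]
  refine forall_congr' fun A => ?_
  have h2 : cexp (-(e : ℂ) * (D A : ℂ)) = ((Real.exp (-e * D A) : ℝ) : ℂ) := by push_cast; ring_nf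
  rw [h2]
  constructor
  · intro h3
    rw [← h3, Real.exp_log (ha A)]
  · intro h3
    have h4 : a A = Real.exp (-e * D A) := by exact_mod_cast h3
    rw [h4, Real.log_exp]

/-- limits along a sequence, one function -/
theorem seq_one {f : ℝ → ℂ} {a : ℂ} (h : (fun T : ℝ => f T - a) =O[atTop] (fun T : ℝ => 1 / T))
    (c : ℂ) : a = c ↔ ∃ t : ℕ → ℝ, Tendsto t atTop atTop ∧
      Tendsto (fun n => f (t n)) atTop (𝓝 c) := by
  have h1 := lim_of_O h
  constructor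
  · rintro rfl
    exact ⟨fun n => (n : ℝ), tendsto_natCast_atTop_atTop, h1.comp tendsto_natCast_atTop_atTop⟩
  · rintro ⟨t, ht, h2⟩
    exact tendsto_nhds_unique (h1.comp ht) h2

theorem log_iff {X : Type} {f : X → ℝ → ℂ} {D : X → ℝ}
    (h : ∀ A, (fun T : ℝ => f A T - D A) =O[atTop] (fun T : ℝ => 1 / T)) {e : ℕ} (he : 1 ≤ e)
    {a : X → ℝ} (ha : ∀ A, 0 < a A) :
    (∀ A, D A = -(1 / e) * Real.log (a A)) ↔ ∃ t : ℕ → ℝ, Tendsto t atTop atTop ∧
      ∀ A, Tendsto (fun n => cexp (-e * f A (t n))) atTop (𝓝 (a A : ℂ)) := by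
  have he' : (e : ℝ) ≠ 0 := by
    have : (0 : ℝ) < e := by exact_mod_cast he
    exact this.ne'
  have h1 : ∀ A, Tendsto (fun T => cexp (-e * f A T)) atTop (𝓝 (cexp (-e * D A))) := fun A =>
    lim_of_O (exp_isBigO (((h A).const_mul_left (-(e : ℂ))).congr_left fun T => by ring))
  rw [← seq_lim (f := fun A T => cexp (-e * f A T)) h1 (fun A => (a A : ℂ))]
  refine forall_congr' fun A => ?_
  have h2 : cexp (-(e : ℂ) * (D A : ℂ)) = ((Real.exp (-e * D A) : ℝ) : ℂ) := by push_cast; ring_nf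
  rw [h2]
  constructor
  · intro h3
    have h4 : -(e : ℝ) * D A = Real.log (a A) := by
      rw [h3]
      field_simp
    rw [h4, Real.exp_log (ha A)]
  · intro h3
    have h4 : a A = Real.exp (-e * D A) := by exact_mod_cast h3
    rw [h4, Real.log_exp]
    field_simp

end Pool.Agent.N739.SU
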